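import Pool.Agent.J4H62.DQ.Num

/-!
# Integer vectors have small multiples among the differences of a dense set
-/

set_option autoImplicit false

namespace Pool.Agent.J4H62.DQ

lemma pigeon {S : Finset ℤ} {a : ℤ} {N m V : ℕ} (hS : ∀ x ∈ S, a < x ∧ x ≤ a + N)
    {v : Fin 6 → ℤ} (hv : ∀ i, |v i| ≤ 2 * V) (hN : 4 * m * V ≤ N)
    (hcard : (2 * N) ^ 6 < (m + 1) * S.card ^ 6) :
    ∃ l : ℕ, 1 ≤ l ∧ l ≤ m ∧ ∃ w w' : Fin 6 → ℤ, (∀ i, w i ∈ S ∧ w' i ∈ S) ∧
      ∀ i, (l : ℤ) * v i = w i - w' i := by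
  classical
  let B : Finset (Fin 6 → ℤ) := Fintype.piFinset fun _ =>
    Finset.Ioc (a - 2 * m * V) (a + N + 2 * m * V)
  let Dm : Finset (ℕ × (Fin 6 → ℤ)) := Finset.range (m + 1) ×ˢ Fintype.piFinset fun _ => S
  have hB : B.card = (N + 4 * m * V) ^ 6 := by
    simp only [B, Fintype.card_piFinset, Int.card_Ioc, Finset.prod_const, Finset.card_univ,
      Fintype.card_fin]
    congr 1
    have : (a + N + 2 * m * V : ℤ) - (a - 2 * m * V) = ((N + 4 * m * V : ℕ) : ℤ) := by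
      push_cast; ring
    rw [this, Int.toNat_natCast]
  have hD : Dm.card = (m + 1) * S.card ^ 6 := by
    simp [Dm, Fintype.card_piFinset]
  have hlt : B.card < Dm.card := by
    rw [hB, hD]
    refine lt_of_le_of_lt (Nat.pow_le_pow_left ?_ 6) hcard
    omega
  obtain ⟨p, hp, p', hp', hne, heq⟩ := Finset.exists_ne_map_eq_of_card_lt_of_maps_to hlt
    (f := fun p : ℕ × (Fin 6 → ℤ) => fun i => p.2 i + (p.1 : ℤ) * v i) (by
      rintro ⟨j, w⟩ hjw
      simp only [Dm, Finset.coe_product, Set.mem_prod, Finset.mem_coe, Finset.mem_range,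
        Fintype.mem_piFinset] at hjw
      simp only [B, Finset.mem_coe, Fintype.mem_piFinset, Finset.mem_Ioc]
      intro i
      obtain ⟨hj, hw⟩ := hjw
      have h1 := hS _ (hw i)
      have h2 := abs_le.mp (hv i)
      have hj0 : (0 : ℤ) ≤ j := Int.natCast_nonneg _
      have hjm : (j : ℤ) ≤ m := by omega
      have hV0 : (0 : ℤ) ≤ V := Int.natCast_nonneg _
      have h3 : (j : ℤ) * v i ≤ 2 * m * V := by
        calc (j : ℤ) * v i ≤ j * (2 * V) := mul_le_mul_of_nonneg_left h2.2 hj0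
          _ ≤ m * (2 * V) := mul_le_mul_of_nonneg_right hjm (by positivity)
          _ = _ := by ring
      have h4 : -(2 * m * V : ℤ) ≤ (j : ℤ) * v i := by
        have h5 : (j : ℤ) * (-(2 * V)) ≤ j * v i := mul_le_mul_of_nonneg_left h2.1 hj0
        have h6 : (j : ℤ) * (2 * V) ≤ m * (2 * V) := mul_le_mul_of_nonneg_right hjm (by positivity)
        linarith
      constructor <;> linarith [h1.1, h1.2])
  obtain ⟨j, w⟩ := p
  obtain ⟨j', w'⟩ := p'
  simp only [Dm, Finset.mem_product, Finset.mem_range, Fintype.mem_piFinset] at hp hp'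
  have heq' : ∀ i, w i + (j : ℤ) * v i = w' i + (j' : ℤ) * v i := fun i => congrFun heq i
  rcases lt_trichotomy j j' with h | h | h
  · refine ⟨j' - j, by omega, by omega, w, w', fun i => ⟨hp.2 i, hp'.2 i⟩, fun i => ?_⟩
    have := heq' i
    rw [Nat.cast_sub h.le]
    linarith
  · exfalso
    apply hne
    subst h
    have : w = w' := funext fun i => by
      have := heq' i
      linarith
    rw [this]
  · refine ⟨j - j', by omega, by omega, w', w, fun i => ⟨hp'.2 i, hp.2 i⟩, fun i => ?_⟩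
    have := heq' i
    rw [Nat.cast_sub h.le]
    linarith

/-- the choice of the number of translates -/
lemma exists_m {A δ : ℝ} (hA : 0 ≤ A) (hδ0 : 0 ≤ δ) (hδ : δ < 1 / 2) :
    ∃ B : ℝ, 0 ≤ B ∧ ∀ V : ℕ, 1 ≤ V → ∃ m : ℕ, 1 ≤ m ∧
      Real.log m ≤ 1 + B * (1 + Real.log V) ^ δ ∧
      64 * Real.exp (6 * (A * (1 + Real.log ((4 * m * V : ℕ) : ℝ)) ^ δ)) ≤ m := by
  obtain ⟨C, hC0, hC⟩ := rpow_le_lin' (B := 6 * A) (θ := δ) (ε := 1 / 2) (by positivity) hδ0
    (by linarith) (by norm_num)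
  set B : ℝ := 13 + 2 * C with hB
  have hB0 : 0 ≤ B := by linarith
  refine ⟨B, hB0, fun V hV => ?_⟩
  have hV1 : (1 : ℝ) ≤ V := by exact_mod_cast hV
  set lV : ℝ := Real.log V with hlV
  have hlV0 : 0 ≤ lV := Real.log_nonneg hV1
  have hone : 1 ≤ (1 + lV) ^ δ := Real.one_le_rpow (by linarith) hδ0
  have hself : (1 + lV) ^ δ ≤ 1 + lV := rpow_le_self' (by linarith) (by linarith)
  set X : ℝ := B * (1 + lV) ^ δ with hX
  have hX0 : 0 ≤ X := by positivity
  set m : ℕ := ⌈Real.exp X⌉₊ with hm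
  have hmX : Real.exp X ≤ m := Nat.le_ceil _
  have hexp1 : 1 ≤ Real.exp X := Real.one_le_exp hX0
  have hm1 : (1 : ℝ) ≤ m := by linarith
  have hm2 : (m : ℝ) ≤ 2 * Real.exp X := by
    have := Nat.ceil_lt_add_one (show 0 ≤ Real.exp X by positivity)
    linarith
  have hlog2 : Real.log 2 < 0.6931471808 := Real.log_two_lt_d9
  have hlm : Real.log m ≤ Real.log 2 + X := by
    have := Real.log_le_log (by linarith) hm2
    rw [Real.log_mul two_ne_zero (Real.exp_pos _).ne', Real.log_exp] at this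
    exact this
  refine ⟨m, by exact_mod_cast hm1, by linarith, ?_⟩
  have hlN : Real.log ((4 * m * V : ℕ) : ℝ) = Real.log 4 + Real.log m + lV := by
    push_cast
    rw [Real.log_mul (by positivity) (by positivity), Real.log_mul (by norm_num) (by positivity)]
  have hlog4 : Real.log 4 = 2 * Real.log 2 := by
    rw [show (4 : ℝ) = 2 ^ 2 by norm_num, Real.log_pow]
    push_cast; ring
  rw [hlN]
  have h1 : 1 + (Real.log 4 + Real.log m + lV) ≤ (1 + (3 + B)) * (1 + lV) := by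
    have h2 : X ≤ B * (1 + lV) := mul_le_mul_of_nonneg_left hself hB0
    nlinarith
  have h0 : 0 ≤ 1 + (Real.log 4 + Real.log m + lV) := by
    have := Real.log_nonneg hm1
    have : 0 ≤ Real.log 4 := Real.log_nonneg (by norm_num)
    linarith
  have h2 : (1 + (Real.log 4 + Real.log m + lV)) ^ δ ≤ (1 + (3 + B)) ^ δ * (1 + lV) ^ δ := by
    rw [← Real.mul_rpow (by positivity) (by positivity)]
    exact Real.rpow_le_rpow h0 h1 hδ0
  have h3 : 6 * A * (1 + (3 + B)) ^ δ ≤ B - 5 := by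
    have := hC (3 + B) (by positivity)
    linarith
  have h4 : 6 * (A * (1 + (Real.log 4 + Real.log m + lV)) ^ δ) ≤ X - 5 := by
    have h5 := mul_le_mul_of_nonneg_left h2 (show 0 ≤ 6 * A by positivity)
    have h6 : 6 * A * ((1 + (3 + B)) ^ δ * (1 + lV) ^ δ) ≤ (B - 5) * (1 + lV) ^ δ := by
      rw [← mul_assoc]
      exact mul_le_mul_of_nonneg_right h3 (by positivity)
    have h7 : (B - 5) * (1 + lV) ^ δ = X - 5 * (1 + lV) ^ δ := by rw [hX]; ring
    linarith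
  have h64 : (64 : ℝ) ≤ Real.exp 5 := by
    have h8 : (64 : ℝ) = Real.exp (Real.log 64) := (Real.exp_log (by norm_num)).symm
    rw [h8]
    apply Real.exp_le_exp.mpr
    rw [show (64 : ℝ) = 2 ^ 6 by norm_num, Real.log_pow]
    push_cast
    linarith
  calc 64 * Real.exp (6 * (A * (1 + (Real.log 4 + Real.log m + lV)) ^ δ)) ≤
        Real.exp 5 * Real.exp (X - 5) :=
        mul_le_mul h64 (Real.exp_le_exp.mpr h4) (Real.exp_pos _).le (Real.exp_pos _).le
    _ = Real.exp X := by rw [← Real.exp_add]; congr 1; ring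
    _ ≤ m := hmX

/-- the pigeonhole principle for sets which are not too sparse -/
theorem dense_pigeon {A δ : ℝ} (hA : 0 ≤ A) (hδ0 : 0 ≤ δ) (hδ : δ < 1 / 2) :
    ∃ B : ℝ, 0 ≤ B ∧ ∀ V : ℕ, 1 ≤ V → ∃ N : ℕ, 1 ≤ N ∧
      Real.log N ≤ B + 2 * Real.log V ∧ ∀ (S : Finset ℤ) (a : ℤ),
      (∀ x ∈ S, a < x ∧ x ≤ a + N) →
      (N : ℝ) * Real.exp (-(A * (1 + Real.log N) ^ δ)) ≤ S.card →
      ∀ v : Fin 6 → ℤ, (∀ i, |v i| ≤ 2 * V) →
      ∃ l : ℕ, 1 ≤ l ∧ Real.log l ≤ B * (1 + Real.log V) ^ δ ∧ ∃ w w' : Fin 6 → ℤ,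
        (∀ i, w i ∈ S ∧ w' i ∈ S) ∧ ∀ i, (l : ℤ) * v i = w i - w' i := by
  obtain ⟨B, hB0, hB⟩ := exists_m hA hδ0 hδ
  obtain ⟨C, hC0, hC⟩ := rpow_le_lin' (B := B) (θ := δ) (ε := 1) hB0 hδ0
    (by linarith) (by norm_num)
  refine ⟨B + C + 3, by linarith, fun V hV => ?_⟩
  obtain ⟨m, hm1, hm2, hm3⟩ := hB V hV
  have hV1 : (1 : ℝ) ≤ V := by exact_mod_cast hV
  have hm1' : (1 : ℝ) ≤ m := by exact_mod_cast hm1
  have hlV0 : 0 ≤ Real.log V := Real.log_nonneg hV1
  have hone : 1 ≤ (1 + Real.log V) ^ δ := Real.one_le_rpow (by linarith) hδ0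
  have hN1 : 1 ≤ 4 * m * V := Nat.mul_pos (by omega) hV
  refine ⟨4 * m * V, hN1, ?_, fun S a hS hcard v hv => ?_⟩
  · have hlog2 : Real.log 2 < 0.6931471808 := Real.log_two_lt_d9
    have hlog4 : Real.log 4 = 2 * Real.log 2 := by
      rw [show (4 : ℝ) = 2 ^ 2 by norm_num, Real.log_pow]
      push_cast; ring
    push_cast
    rw [Real.log_mul (by positivity) (by positivity), Real.log_mul (by norm_num) (by positivity)]
    have := hC (Real.log V) hlV0
    linarith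
  · have hNpos : (0 : ℝ) < ((4 * m * V : ℕ) : ℝ) := by exact_mod_cast hN1
    set g : ℝ := A * (1 + Real.log ((4 * m * V : ℕ) : ℝ)) ^ δ with hg
    have hc : (2 * (4 * m * V)) ^ 6 < (m + 1) * S.card ^ 6 := by
      have h1 : (((4 * m * V : ℕ) : ℝ) * Real.exp (-g)) ^ 6 ≤ (S.card : ℝ) ^ 6 :=
        pow_le_pow_left₀ (by positivity) hcard 6
      have h2 : (2 * ((4 * m * V : ℕ) : ℝ)) ^ 6 =
          64 * Real.exp (6 * g) * (((4 * m * V : ℕ) : ℝ) * Real.exp (-g)) ^ 6 := by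
        rw [mul_pow (((4 * m * V : ℕ) : ℝ)), ← Real.exp_nat_mul]
        have h3 : Real.exp (6 * g) * Real.exp (((6 : ℕ) : ℝ) * -g) = 1 := by
          rw [← Real.exp_add, ← Real.exp_zero]
          congr 1
          push_cast; ring
        calc (2 * ((4 * m * V : ℕ) : ℝ)) ^ 6 = 64 * ((4 * m * V : ℕ) : ℝ) ^ 6 * 1 := by ring
          _ = 64 * ((4 * m * V : ℕ) : ℝ) ^ 6 *
              (Real.exp (6 * g) * Real.exp (((6 : ℕ) : ℝ) * -g)) := by rw [h3]
          _ = _ := by ring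
      have h4 : (2 * ((4 * m * V : ℕ) : ℝ)) ^ 6 ≤ m * (S.card : ℝ) ^ 6 := by
        rw [h2]
        exact mul_le_mul hm3 h1 (by positivity) (by positivity)
      have h5 : (0 : ℝ) < (S.card : ℝ) ^ 6 := by
        have : 0 < (((4 * m * V : ℕ) : ℝ) * Real.exp (-g)) ^ 6 := by positivity
        linarith
      have h6 : (2 * ((4 * m * V : ℕ) : ℝ)) ^ 6 < (m + 1) * (S.card : ℝ) ^ 6 := by linarith
      exact_mod_cast h6
    obtain ⟨l, hl1, hl2, w, w', h1, h2⟩ := pigeon hS hv le_rfl hc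
    refine ⟨l, hl1, ?_, w, w', h1, h2⟩
    have hl1' : (1 : ℝ) ≤ l := by exact_mod_cast hl1
    have h3 : Real.log l ≤ Real.log m := Real.log_le_log (by linarith) (by exact_mod_cast hl2)
    have : 0 ≤ C * (1 + Real.log V) ^ δ := by positivity
    nlinarith

end Pool.Agent.J4H62.DQ
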