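import Pool.Agent.J4H62.DQ.Def
import Pool.Agent.J4H62.DQ.Pig

/-!
# Sets which contain many values of a polynomial
-/

set_option autoImplicit false

namespace Pool.Agent.J4H62.DQ

open Pool.Agent.TH255.HC Pool.Agent.TH255.QI
open Polynomial (aeval)

/-- at least `N exp (-A (1 + log N)^δ)` of the integers `n` in `(a, a + N]` satisfy `f(n) ∈ T` -/
def Many (f : Polynomial ℤ) (A δ : ℝ) (T : Set ℚ) (a : ℤ) (N : ℕ) : Prop :=
  (N : ℝ) * Real.exp (-(A * (1 + Real.log N) ^ δ)) ≤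
    Set.ncard {n : ℤ | a < n ∧ n ≤ a + N ∧ aeval (n : ℚ) f ∈ T}

/-- bounded denominators; many values of `f` on some interval of each length -/
def Cl1 (f : Polynomial ℤ) (A δ : ℝ) (D : ℕ) (T : Set ℚ) : Prop :=
  (∀ t ∈ T, t.den ≤ D) ∧ ∀ N : ℕ, 1 ≤ N → ∃ a : ℤ, Many f A δ T a N

/-- small denominators; many values of `f` on some interval of each length, not too far from the
origin -/
def Cl2 (f : Polynomial ℤ) (A δ : ℝ) (D : ℕ) (T : Set ℚ) : Prop :=
  (∀ t ∈ T, Real.log t.den ≤ A * (1 + Real.log (max 1 |(t : ℝ)|)) ^ δ) ∧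
    ∀ N : ℕ, 1 ≤ N → ∃ a : ℤ, |a| ≤ D * (N : ℤ) ^ D ∧ Many f A δ T a N

/-! ### polynomials -/

lemma PF.poly {g : (ℕ → ℚ) → ℚ} (hg : PF g) (f : Polynomial ℤ) :
    PF (fun v => aeval (g v) f) := by
  obtain ⟨p, hp⟩ := hg
  refine ⟨aeval p f, fun v => ?_⟩
  rw [← Polynomial.aeval_algHom_apply, hp]

/-- the denominator of a value of a polynomial -/
lemma den_poly {f : Polynomial ℤ} (hf : 1 ≤ f.natDegree) (u : ℚ) :
    u.den ≤ f.leadingCoeff.natAbs * (aeval u f).den := by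
  set t : ℚ := aeval u f with ht
  set g : Polynomial ℤ := Polynomial.C (t.den : ℤ) * f - Polynomial.C t.num with hg
  have hd0 : (t.den : ℤ) ≠ 0 := by exact_mod_cast t.den_nz
  have hroot : aeval u g = 0 := by
    rw [hg, map_sub, map_mul, Polynomial.aeval_C, Polynomial.aeval_C, ← ht]
    simp only [eq_intCast, Int.cast_natCast]
    rw [mul_comm, Rat.mul_den_eq_num, sub_self]
  have hdeg : (Polynomial.C (t.den : ℤ) * f).natDegree = f.natDegree :=
    Polynomial.natDegree_C_mul hd0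
  have hlt : (Polynomial.C t.num).degree < (Polynomial.C (t.den : ℤ) * f).degree := by
    have h1 : (Polynomial.C t.num).degree ≤ 0 := Polynomial.degree_C_le
    have h2 : 0 < (Polynomial.C (t.den : ℤ) * f).degree := by
      rw [← Polynomial.natDegree_pos_iff_degree_pos, hdeg]
      omega
    exact lt_of_le_of_lt h1 h2
  have hlc : g.leadingCoeff = (t.den : ℤ) * f.leadingCoeff := by
    rw [hg, Polynomial.leadingCoeff_sub_of_degree_lt hlt, Polynomial.leadingCoeff_mul,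
      Polynomial.leadingCoeff_C]
  have h1 := den_dvd_of_is_root hroot
  rw [hlc] at h1
  have h2 := Int.natAbs_dvd_natAbs.mpr h1
  rw [Rat.isFractionRingDen, Int.natAbs_mul, Int.natAbs_natCast] at h2
  have hlc0 : f.leadingCoeff ≠ 0 := by
    intro h
    rw [Polynomial.leadingCoeff_eq_zero] at h
    rw [h] at hf
    simp at hf
  have h3 : 0 < t.den * f.leadingCoeff.natAbs :=
    Nat.mul_pos t.den_pos (Int.natAbs_pos.mpr hlc0)
  rw [mul_comm]
  exact Nat.le_of_dvd h3 h2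

/-- the size of a value of a polynomial -/
lemma abs_poly (f : Polynomial ℤ) : ∃ C : ℝ, 1 ≤ C ∧ ∀ u : ℚ,
    max 1 |((aeval u f : ℚ) : ℝ)| ≤ C * (max 1 |(u : ℝ)|) ^ f.natDegree := by
  refine ⟨1 + ∑ i ∈ Finset.range (f.natDegree + 1), |(f.coeff i : ℝ)|, ?_, fun u => ?_⟩
  · have : 0 ≤ ∑ i ∈ Finset.range (f.natDegree + 1), |(f.coeff i : ℝ)| :=
      Finset.sum_nonneg fun i _ => abs_nonneg _
    linarith
  set M : ℝ := max 1 |(u : ℝ)| with hM
  have hM1 : 1 ≤ M := le_max_left _ _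
  have hMd : 1 ≤ M ^ f.natDegree := one_le_pow₀ hM1
  have hS : 0 ≤ ∑ i ∈ Finset.range (f.natDegree + 1), |(f.coeff i : ℝ)| :=
    Finset.sum_nonneg fun i _ => abs_nonneg _
  apply max_le
  · nlinarith
  have h1 : ((aeval u f : ℚ) : ℝ) = ∑ i ∈ Finset.range (f.natDegree + 1),
      (f.coeff i : ℝ) * (u : ℝ) ^ i := by
    rw [Polynomial.aeval_eq_sum_range]
    push_cast
    refine Finset.sum_congr rfl fun i _ => ?_
    rw [zsmul_eq_mul]
    push_cast
    rfl
  rw [h1]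
  calc |∑ i ∈ Finset.range (f.natDegree + 1), (f.coeff i : ℝ) * (u : ℝ) ^ i| ≤
        ∑ i ∈ Finset.range (f.natDegree + 1), |(f.coeff i : ℝ) * (u : ℝ) ^ i| :=
        Finset.abs_sum_le_sum_abs _ _
    _ ≤ ∑ i ∈ Finset.range (f.natDegree + 1), |(f.coeff i : ℝ)| * M ^ f.natDegree := by
        apply Finset.sum_le_sum
        intro i hi
        rw [abs_mul, abs_pow]
        apply mul_le_mul_of_nonneg_left _ (abs_nonneg _)
        calc |(u : ℝ)| ^ i ≤ M ^ i := pow_le_pow_left₀ (abs_nonneg _) (le_max_right _ _) i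
          _ ≤ M ^ f.natDegree := pow_le_pow_right₀ hM1 (by
              rw [Finset.mem_range] at hi; omega)
    _ = (∑ i ∈ Finset.range (f.natDegree + 1), |(f.coeff i : ℝ)|) * M ^ f.natDegree := by
        rw [Finset.sum_mul]
    _ ≤ _ := by nlinarith

/-! ### the first class -/

/-- differences of solutions of `f(u) ∈ T` -/
def W1 (f : Polynomial ℤ) (T : Set ℚ) (a _s : ℚ) : Prop :=
  ∃ u v : ℚ, a = u - v ∧ aeval u f ∈ T ∧ aeval v f ∈ T

/-- differences of solutions of `f(u) ∈ T` of polynomial size -/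
def W2 (f : Polynomial ℤ) (K : ℕ) (T : Set ℚ) (a s : ℚ) : Prop :=
  ∃ u v : ℚ, a = u - v ∧ (aeval u f ∈ T ∧ u ^ 2 ≤ K * s ^ K) ∧ (aeval v f ∈ T ∧ v ^ 2 ≤ K * s ^ K)

variable {𝒯 : Set ℚ → Prop}

lemma dt_W1 (f : Polynomial ℤ) : DT 𝒯 (fun T v => W1 f T (v 0) (v 1)) := by
  have h : DT 𝒯 (fun T v => ∃ u : ℕ → ℚ, v 0 = u 0 - u 1 ∧ aeval (u 0) f ∈ T ∧
      aeval (u 1) f ∈ T) :=
    DT.exs ((DT.eq (PF.var 0).ev ((PF.od 0).sub (PF.od 1))).and
      ((DT.mem (PF.poly (PF.od 0) f)).and (DT.mem (PF.poly (PF.od 1) f))))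
  refine h.congr fun T _ v => ?_
  constructor
  · rintro ⟨a, b, h⟩
    exact ⟨fun n => if n = 0 then a else b, by simpa using h⟩
  · rintro ⟨u, h⟩
    exact ⟨u 0, u 1, h⟩

lemma dt_W2 (f : Polynomial ℤ) (K : ℕ) : DT 𝒯 (fun T v => W2 f K T (v 0) (v 1)) := by
  have h : DT 𝒯 (fun T v => ∃ u : ℕ → ℚ, v 0 = u 0 - u 1 ∧
      (aeval (u 0) f ∈ T ∧ u 0 ^ 2 ≤ ((K : ℤ) : ℚ) * v 1 ^ K) ∧
      (aeval (u 1) f ∈ T ∧ u 1 ^ 2 ≤ ((K : ℤ) : ℚ) * v 1 ^ K)) := by
    have l : PF (fun v : ℕ → ℚ => ((K : ℤ) : ℚ) * v (2 * 1) ^ K) :=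
      (PF.int K).mul ((PF.var 1).ev.pow K)
    exact DT.exs ((DT.eq (PF.var 0).ev ((PF.od 0).sub (PF.od 1))).and
      (((DT.mem (PF.poly (PF.od 0) f)).and (DT.le ((PF.od 0).pow 2) l)).and
      ((DT.mem (PF.poly (PF.od 1) f)).and (DT.le ((PF.od 1).pow 2) l))))
  refine h.congr fun T _ v => ?_
  simp only [Int.cast_natCast]
  constructor
  · rintro ⟨a, b, h⟩
    exact ⟨fun n => if n = 0 then a else b, by simpa using h⟩
  · rintro ⟨u, h⟩
    exact ⟨u 0, u 1, h⟩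

lemma log_den_le {t : ℚ} {X : ℕ} (h : t.den ≤ X) : Real.log t.den ≤ Real.log X := by
  apply Real.log_le_log
  · exact_mod_cast t.den_pos
  · exact_mod_cast h

lemma den_sub_le (x y : ℚ) : (x - y).den ≤ x.den * y.den := by
  have := den_add_le x (-y)
  rwa [← sub_eq_add_neg, Rat.neg_den] at this

lemma log_den_sub {x y : ℚ} {X : ℝ} (hx : Real.log x.den ≤ X) (hy : Real.log y.den ≤ X) :
    Real.log (x - y).den ≤ 2 * X := by
  have h := log_den_le (den_sub_le x y)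
  have p1 : (0 : ℝ) < x.den := by exact_mod_cast x.den_pos
  have p2 : (0 : ℝ) < y.den := by exact_mod_cast y.den_pos
  push_cast at h
  rw [Real.log_mul p1.ne' p2.ne'] at h
  linarith

lemma log_den_poly {f : Polynomial ℤ} (hf : 1 ≤ f.natDegree) (u : ℚ) :
    Real.log u.den ≤ Real.log f.leadingCoeff.natAbs + Real.log (aeval u f : ℚ).den := by
  have h := log_den_le (den_poly hf u)
  have hlc0 : f.leadingCoeff ≠ 0 := by
    intro h
    rw [Polynomial.leadingCoeff_eq_zero] at h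
    rw [h] at hf
    simp at hf
  have p1 : (0 : ℝ) < f.leadingCoeff.natAbs := by exact_mod_cast Int.natAbs_pos.mpr hlc0
  have p2 : (0 : ℝ) < (aeval u f : ℚ).den := by exact_mod_cast (aeval u f : ℚ).den_pos
  push_cast at h
  rw [Real.log_mul (by exact_mod_cast p1.ne') p2.ne'] at h
  exact_mod_cast h

/-- the set of the integers counted -/
lemma many_finset {f : Polynomial ℤ} {A δ : ℝ} {T : Set ℚ} {a : ℤ} {N : ℕ} (h : Many f A δ T a N) :
    ∃ S : Finset ℤ, (∀ x ∈ S, (a < x ∧ x ≤ a + N) ∧ aeval (x : ℚ) f ∈ T) ∧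
      (N : ℝ) * Real.exp (-(A * (1 + Real.log N) ^ δ)) ≤ S.card := by
  have hfin : {n : ℤ | a < n ∧ n ≤ a + N ∧ aeval (n : ℚ) f ∈ T}.Finite :=
    (Set.finite_Ioc a (a + N)).subset fun n hn => ⟨hn.1, hn.2.1⟩
  refine ⟨hfin.toFinset, fun x hx => ?_, ?_⟩
  · rw [Set.Finite.mem_toFinset] at hx
    exact ⟨⟨hx.1, hx.2.1⟩, hx.2.2⟩
  · rw [← Set.ncard_eq_toFinset_card _ hfin]
    exact h

theorem wt_cl1 {f : Polynomial ℤ} (hf : 1 ≤ f.natDegree) {A δ : ℝ} (hA : 0 ≤ A) (hδ0 : 0 ≤ δ)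
    (hδ : δ < 1 / 2) (D : ℕ) : ∃ A' : ℝ, 0 ≤ A' ∧ Wt A' δ (Cl1 f A δ D) (W1 f) := by
  obtain ⟨B, hB0, hB⟩ := dense_pigeon hA hδ0 hδ
  set L : ℝ := Real.log f.leadingCoeff.natAbs + Real.log D with hL
  have hL0 : 0 ≤ L := add_nonneg (Real.log_natCast_nonneg _) (Real.log_natCast_nonneg _)
  refine ⟨B + 2 * L, by linarith, dt_W1 f, fun T hT => ?_, fun T hT => ?_⟩
  · rintro a s ⟨u, v, rfl, hu, hv⟩
    have h1 : ∀ w : ℚ, aeval w f ∈ T → Real.log w.den ≤ L := by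
      intro w hw
      have h2 := log_den_poly hf w
      have h3 := log_den_le (hT.1 _ hw)
      linarith
    have h2 := log_den_sub (h1 u hu) (h1 v hv)
    have h3 : (1 : ℝ) ≤ (1 + Real.log (max 1 |(s : ℝ)|)) ^ δ := by
      apply Real.one_le_rpow _ hδ0
      have := Real.log_nonneg (le_max_left (1 : ℝ) |(s : ℝ)|)
      linarith
    nlinarith
  · intro V hV v hv
    obtain ⟨N, hN1, -, hN⟩ := hB V hV
    obtain ⟨a, ha⟩ := hT.2 N hN1
    obtain ⟨S, hS, hcard⟩ := many_finset ha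
    obtain ⟨l, hl1, hl2, w, w', h1, h2⟩ := hN S a (fun x hx => (hS x hx).1) hcard v hv
    refine ⟨l, hl1, ?_, fun s _ i => ?_⟩
    · have h3 : 0 ≤ (1 + Real.log (V : ℝ)) ^ δ := by
        apply Real.rpow_nonneg
        have := Real.log_natCast_nonneg V
        linarith
      nlinarith
    · refine ⟨w i, w' i, ?_, (hS _ (h1 i).1).2, (hS _ (h1 i).2).2⟩
      exact_mod_cast h2 i

/-! ### the second class -/

lemma snd_W2 {f : Polynomial ℤ} (hf : 1 ≤ f.natDegree) {A δ : ℝ} (hA : 0 ≤ A) (hδ0 : 0 ≤ δ)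
    (hδ : δ < 1 / 2) {K : ℕ} (hK : 1 ≤ K) : ∃ A' : ℝ, 0 ≤ A' ∧ ∀ T : Set ℚ,
      (∀ t ∈ T, Real.log t.den ≤ A * (1 + Real.log (max 1 |(t : ℝ)|)) ^ δ) →
      Snd A' δ (W2 f K T) := by
  obtain ⟨C, hC, hCf⟩ := abs_poly f
  set lc : ℝ := Real.log f.leadingCoeff.natAbs with hlc
  have hlc0 : 0 ≤ lc := Real.log_natCast_nonneg _
  have hlC0 : 0 ≤ Real.log C := Real.log_nonneg hC
  have hlK0 : 0 ≤ Real.log K := Real.log_natCast_nonneg _
  set d : ℝ := (f.natDegree : ℝ) with hd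
  have hd0 : 0 ≤ d := Nat.cast_nonneg _
  set C₂ : ℝ := 1 + Real.log C + d * (Real.log K + K) with hC₂
  have hC₂1 : 1 ≤ C₂ := by
    have : 0 ≤ d * (Real.log K + K) := by positivity
    linarith
  refine ⟨2 * (lc + A * C₂), by positivity, ?_⟩
  rintro T hT a s ⟨u, v, rfl, ⟨hu, hu2⟩, ⟨hv, hv2⟩⟩
  have hs1 : (1 : ℝ) ≤ max 1 |(s : ℝ)| := le_max_left _ _
  set ls : ℝ := Real.log (max 1 |(s : ℝ)|) with hls
  have hls0 : 0 ≤ ls := Real.log_nonneg hs1
  have key : ∀ w : ℚ, aeval w f ∈ T → w ^ 2 ≤ K * s ^ K →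
      Real.log w.den ≤ (lc + A * C₂) * (1 + ls) ^ δ := by
    intro w hw hw2
    have hw1 : (1 : ℝ) ≤ max 1 |(w : ℝ)| := le_max_left _ _
    have h1 : Real.log (max 1 |(w : ℝ)|) ≤ Real.log K + K * ls := by
      have h2 : (max 1 |(w : ℝ)|) ^ 2 ≤ K * (max 1 |(s : ℝ)|) ^ K := by
        have hK1 : (1 : ℝ) ≤ K := by exact_mod_cast hK
        have h3 : (1 : ℝ) ≤ (max 1 |(s : ℝ)|) ^ K := one_le_pow₀ hs1
        rcases le_total 1 |(w : ℝ)| with h | h
        · rw [max_eq_right h, sq_abs]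
          have h4 : (w : ℝ) ^ 2 ≤ K * (s : ℝ) ^ K := by exact_mod_cast hw2
          have h5 : (s : ℝ) ^ K ≤ (max 1 |(s : ℝ)|) ^ K := by
            calc (s : ℝ) ^ K ≤ |(s : ℝ) ^ K| := le_abs_self _
              _ = |(s : ℝ)| ^ K := abs_pow _ _
              _ ≤ _ := pow_le_pow_left₀ (abs_nonneg _) (le_max_right _ _) K
          have h6 := mul_le_mul_of_nonneg_left h5 (show (0 : ℝ) ≤ K by linarith)
          linarith
        · rw [max_eq_left h, one_pow]
          nlinarith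
      have hK0 : (0 : ℝ) < K := by exact_mod_cast hK
      have h3 := Real.log_le_log (by positivity) h2
      rw [Real.log_pow, Real.log_mul (by positivity) (by positivity), Real.log_pow] at h3
      push_cast at h3
      have h4 : 0 ≤ Real.log (max 1 |(w : ℝ)|) := Real.log_nonneg hw1
      linarith
    have h2 : Real.log (max 1 |((aeval w f : ℚ) : ℝ)|) ≤
        Real.log C + d * Real.log (max 1 |(w : ℝ)|) := by
      have h3 := Real.log_le_log (by positivity) (hCf w)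
      rw [Real.log_mul (by positivity) (by positivity), Real.log_pow] at h3
      exact h3
    have h3 : 1 + Real.log (max 1 |((aeval w f : ℚ) : ℝ)|) ≤ C₂ * (1 + ls) := by
      have h4 := mul_le_mul_of_nonneg_left h1 hd0
      have h5 : 0 ≤ Real.log C * ls := mul_nonneg hlC0 hls0
      have h6 : 0 ≤ d * Real.log K * ls := by positivity
      have h7 : 0 ≤ d * (K : ℝ) := by positivity
      rw [hC₂]
      linarith
    have h4 := log_den_poly hf w
    have h5 := hT _ hw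
    have h6 : (1 + Real.log (max 1 |((aeval w f : ℚ) : ℝ)|)) ^ δ ≤ C₂ * (1 + ls) ^ δ := by
      refine (Real.rpow_le_rpow ?_ h3 hδ0).trans (mul_rpow_le hC₂1 (by linarith) (by linarith))
      have := Real.log_nonneg (le_max_left (1 : ℝ) |((aeval w f : ℚ) : ℝ)|)
      linarith
    have h7 := mul_le_mul_of_nonneg_left h6 hA
    have h8 : (1 : ℝ) ≤ (1 + ls) ^ δ := Real.one_le_rpow (by linarith) hδ0
    have h9 := mul_le_mul_of_nonneg_left h8 hlc0
    linarith
  have := log_den_sub (key u hu hu2) (key v hv hv2)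
  linarith

theorem wt_cl2 {f : Polynomial ℤ} (hf : 1 ≤ f.natDegree) {A δ : ℝ} (hA : 0 ≤ A) (hδ0 : 0 ≤ δ)
    (hδ : δ < 1 / 2) (D : ℕ) :
    ∃ (A' : ℝ) (K : ℕ), 0 ≤ A' ∧ Wt A' δ (Cl2 f A δ D) (W2 f K) := by
  obtain ⟨B, hB0, hB⟩ := dense_pigeon hA hδ0 hδ
  obtain ⟨E, hE⟩ := exists_nat_gt (Real.exp B)
  have hE1 : 1 ≤ E := by
    have : (0 : ℝ) < E := lt_trans (Real.exp_pos _) hE
    exact_mod_cast this
  -- `|w| ≤ (D + 1) (E V²)^(D + 1)`
  set K : ℕ := (D + 1) ^ 2 * E ^ (2 * (D + 1)) + 4 * (D + 1) with hK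
  have hK1 : 1 ≤ K := by omega
  obtain ⟨A₁, hA₁, hS⟩ := snd_W2 hf hA hδ0 hδ hK1
  refine ⟨A₁ + B, K, by linarith, dt_W2 f K, fun T hT => ?_, fun T hT => ?_⟩
  · intro a s h
    have h1 := hS T hT.1 a s h
    have h2 : 0 ≤ (1 + Real.log (max 1 |(s : ℝ)|)) ^ δ := by
      apply Real.rpow_nonneg
      have := Real.log_nonneg (le_max_left (1 : ℝ) |(s : ℝ)|)
      linarith
    nlinarith
  · intro V hV v hv
    obtain ⟨N, hN1, hN2, hN⟩ := hB V hV
    obtain ⟨a, ha0, ha⟩ := hT.2 N hN1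
    obtain ⟨S, hS, hcard⟩ := many_finset ha
    obtain ⟨l, hl1, hl2, w, w', h1, h2⟩ := hN S a (fun x hx => (hS x hx).1) hcard v hv
    have hVR : (1 : ℝ) ≤ V := by exact_mod_cast hV
    have hNE : N ≤ E * V ^ 2 := by
      have h3 : (N : ℝ) ≤ E * (V : ℝ) ^ 2 := by
        have hN0 : (0 : ℝ) < N := by exact_mod_cast hN1
        have h4 : (N : ℝ) = Real.exp (Real.log N) := (Real.exp_log hN0).symm
        have h5 : (V : ℝ) ^ 2 = Real.exp (2 * Real.log V) := by
          rw [show (2 : ℝ) * Real.log V = Real.log ((V : ℝ) ^ 2) by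
            rw [Real.log_pow]; norm_num, Real.exp_log (by positivity)]
        rw [h4, h5]
        calc Real.exp (Real.log N) ≤ Real.exp (B + 2 * Real.log V) := Real.exp_le_exp.mpr hN2
          _ = Real.exp B * Real.exp (2 * Real.log V) := Real.exp_add _ _
          _ ≤ E * Real.exp (2 * Real.log V) :=
            mul_le_mul_of_nonneg_right hE.le (Real.exp_pos _).le
      exact_mod_cast h3
    have hsz : ∀ x ∈ S, ∀ s : ℚ, (V : ℚ) ≤ s → (x : ℚ) ^ 2 ≤ K * s ^ K := by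
      intro x hx s hs
      have h3 := (hS x hx).1
      have hNZ : (1 : ℤ) ≤ N := by exact_mod_cast hN1
      have h4 : |x| ≤ (D + 1) * (N : ℤ) ^ (D + 1) := by
        have h5 : |x| ≤ |a| + N := by
          have := abs_le.mp (le_refl |a|)
          apply abs_le.mpr
          constructor <;> linarith [h3.1, h3.2, this.1, this.2]
        have h6 : (N : ℤ) ^ D ≤ (N : ℤ) ^ (D + 1) := pow_le_pow_right₀ hNZ (by omega)
        have h7 : (N : ℤ) ≤ (N : ℤ) ^ (D + 1) := by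
          calc (N : ℤ) = (N : ℤ) ^ 1 := (pow_one _).symm
            _ ≤ _ := pow_le_pow_right₀ hNZ (by omega)
        have h8 : (0 : ℤ) ≤ D := Int.natCast_nonneg _
        have h9 := mul_le_mul_of_nonneg_left h6 h8
        linarith
      have hVQ : (1 : ℚ) ≤ V := by exact_mod_cast hV
      have hEQ : (1 : ℚ) ≤ E := by exact_mod_cast hE1
      have h5 : |(x : ℚ)| ≤ (D + 1) * ((E : ℚ) * V ^ 2) ^ (D + 1) := by
        have h6 : |(x : ℚ)| ≤ (D + 1) * (N : ℚ) ^ (D + 1) := by exact_mod_cast h4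
        have h7 : (N : ℚ) ≤ E * (V : ℚ) ^ 2 := by exact_mod_cast hNE
        refine h6.trans (mul_le_mul_of_nonneg_left ?_ (by positivity))
        exact pow_le_pow_left₀ (Nat.cast_nonneg _) h7 _
      calc (x : ℚ) ^ 2 = |(x : ℚ)| ^ 2 := (sq_abs _).symm
        _ ≤ ((D + 1) * ((E : ℚ) * V ^ 2) ^ (D + 1)) ^ 2 := pow_le_pow_left₀ (abs_nonneg _) h5 2
        _ = ((D + 1) ^ 2 * (E : ℚ) ^ (2 * (D + 1))) * (V : ℚ) ^ (4 * (D + 1)) := by ring
        _ ≤ K * s ^ K := by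
          apply mul_le_mul
          · rw [hK]
            push_cast
            have : (0 : ℚ) ≤ 4 * (D + 1) := by positivity
            linarith
          · calc (V : ℚ) ^ (4 * (D + 1)) ≤ (V : ℚ) ^ K := pow_le_pow_right₀ hVQ (by omega)
              _ ≤ s ^ K := pow_le_pow_left₀ (by linarith) hs K
          · positivity
          · positivity
    refine ⟨l, hl1, ?_, fun s hs i => ?_⟩
    · have h3 : 0 ≤ (1 + Real.log (V : ℝ)) ^ δ := by
        apply Real.rpow_nonneg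
        have := Real.log_natCast_nonneg V
        linarith
      nlinarith
    · refine ⟨w i, w' i, ?_, ⟨(hS _ (h1 i).1).2, hsz _ (h1 i).1 s hs⟩,
        ⟨(hS _ (h1 i).2).2, hsz _ (h1 i).2 s hs⟩⟩
      exact_mod_cast h2 i

/-! ### elimination of the predicate -/

/-- if membership in `T₀` is existentially definable without a predicate, so is everything which is
definable with the predicate `T₀` -/
theorem DT.elim {T₀ : Set ℚ} (hT : 𝒯 T₀)
    (hmem : DT (fun T : Set ℚ => T = Set.univ) (fun _ v => v 0 ∈ T₀))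
    {P : Set ℚ → (ℕ → ℚ) → Prop} (h : DT 𝒯 P) :
    DT (fun T : Set ℚ => T = Set.univ) (fun _ v => P T₀ v) := by
  obtain ⟨p, S, hp⟩ := h
  have h1 : DT (fun T : Set ℚ => T = Set.univ) (fun _ v => ∃ u : ℕ → ℚ,
      MvPolynomial.aeval (mix v u) p = 0 ∧ ∀ s ∈ S, mix v u s ∈ T₀) := by
    refine DT.exs ?_
    have e : ∀ w : ℕ → ℚ, mix (fun n => w (2 * n)) (fun n => w (2 * n + 1)) = w := by
      intro w
      funext n
      obtain ⟨m, rfl | rfl⟩ : ∃ m, n = 2 * m ∨ n = 2 * m + 1 := ⟨n / 2, by omega⟩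
      · rw [mix_even]
      · rw [mix_odd]
    have h2 : DT (fun T : Set ℚ => T = Set.univ) (fun _ w => MvPolynomial.aeval w p = 0 ∧
        ∀ s ∈ S, w s ∈ T₀) :=
      (DT.eq ⟨p, fun _ => rfl⟩ PF.zero).and (DT.list S fun s => hmem.ren fun _ => s)
    refine h2.congr fun T _ w => ?_
    rw [e]
  exact h1.congr fun T _ v => hp T₀ hT v

/-- membership in the set of the `x` for which `Q(x, y)` has a zero is existentially definable -/
theorem dt_sol {m : ℕ} (Q : MvPolynomial (Fin (m + 1)) ℤ) :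
    DT (fun T : Set ℚ => T = Set.univ) (fun _ v => ∃ y : Fin m → ℚ,
      MvPolynomial.aeval (Fin.cons (v 0) y : Fin (m + 1) → ℚ) Q = 0) := by
  let g : Fin (m + 1) → ℕ := Fin.cons 0 fun i => 2 * (i : ℕ) + 1
  have h : DT (fun T : Set ℚ => T = Set.univ)
      (fun _ v => ∃ u : ℕ → ℚ, MvPolynomial.aeval (Fin.cons (v 0) fun i : Fin m => u i) Q = 0) := by
    refine DT.exs ?_
    refine DT.eq (f := fun w => MvPolynomial.aeval
      (Fin.cons (w (2 * 0)) fun i : Fin m => w (2 * i + 1)) Q)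
      ⟨MvPolynomial.rename g Q, fun v => ?_⟩ PF.zero
    rw [MvPolynomial.aeval_rename]
    congr 2
    funext i
    refine Fin.cases ?_ (fun j => ?_) i
    · rfl
    · rfl
  refine h.congr fun T _ v => ?_
  constructor
  · rintro ⟨y, hy⟩
    refine ⟨fun k => if hk : k < m then y ⟨k, hk⟩ else 0, ?_⟩
    have : (fun i : Fin m => if hk : (i : ℕ) < m then y ⟨i, hk⟩ else 0) = y := by
      funext i
      simp
    rw [this]
    exact hy
  · rintro ⟨u, hu⟩
    exact ⟨fun i => u i, hu⟩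

end Pool.Agent.J4H62.DQ
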