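import Pool.Agent.TH255.QI.Rel
import Pool.Agent.TH255.HC.Gadget

/-!
# Existential definitions of relations between coded integers
-/

set_option autoImplicit false

namespace Pool.Agent.J4H62.DQ

open Pool.Agent.TH255.HC Pool.Agent.TH255.QI

variable {𝒯 : Set ℚ → Prop}

/-- substitution of polynomial functions -/
theorem DT.comp {n : ℕ} {Q : Set ℚ → (Fin n → ℚ) → Prop}
    (h : DT 𝒯 (fun T v => Q T (fun i => v i))) {F : Fin n → (ℕ → ℚ) → ℚ} (hF : ∀ i, PF (F i)) :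
    DT 𝒯 (fun T v => Q T (fun i => F i v)) := by
  have h1 : DT 𝒯 (fun T v => ∃ u : ℕ → ℚ, (∀ i ∈ List.finRange n, u i = F i v) ∧
      Q T (fun i => u i)) := by
    refine DT.exs ((DT.list _ fun i => ?_).and ?_)
    · exact DT.eq (PF.od i) (hF i).ev
    · exact h.ren (fun k => 2 * k + 1)
  refine h1.congr fun T _ v => ?_
  constructor
  · intro hQ
    refine ⟨fun k => if hk : k < n then F ⟨k, hk⟩ v else 0, fun i _ => ?_, ?_⟩
    · simp
    · simpa using hQ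
  · rintro ⟨u, hu, hQ⟩
    have : (fun i : Fin n => u i) = fun i => F i v := funext fun i => hu i (List.mem_finRange i)
    rwa [this] at hQ

theorem DT.comp2 {Q : Set ℚ → ℚ → ℚ → Prop} (h : DT 𝒯 (fun T v => Q T (v 0) (v 1)))
    {f g : (ℕ → ℚ) → ℚ} (hf : PF f) (hg : PF g) : DT 𝒯 (fun T v => Q T (f v) (g v)) := by
  have := DT.comp (n := 2) (Q := fun T w => Q T (w 0) (w 1)) h (F := ![f, g]) (by
    intro i
    fin_cases i
    · exact hf
    · exact hg)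
  exact this

theorem DT.comp3 {Q : Set ℚ → ℚ → ℚ → ℚ → Prop} (h : DT 𝒯 (fun T v => Q T (v 0) (v 1) (v 2)))
    {f g k : (ℕ → ℚ) → ℚ} (hf : PF f) (hg : PF g) (hk : PF k) :
    DT 𝒯 (fun T v => Q T (f v) (g v) (k v)) := by
  have := DT.comp (n := 3) (Q := fun T w => Q T (w 0) (w 1) (w 2)) h (F := ![f, g, k]) (by
    intro i
    fin_cases i
    · exact hf
    · exact hg
    · exact hk)
  exact this

/-- definitions with a comparison of heights become definitions with `T` -/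
theorem dt_of_dh' {τ : Tol} {R : Set ℚ → ℚ → ℚ → Prop} (hR : DT 𝒯 (fun T v => R T (v 0) (v 1)))
    (hτ : ∀ T, 𝒯 T → Btw τ (R T)) {P : (ℚ → ℚ → Prop) → (ℕ → ℚ) → Prop} (h : DH τ P) :
    DT 𝒯 (fun T v => P (R T) v) := by
  obtain ⟨p, S, hp⟩ := h
  have h1 : DT 𝒯 (fun T v => ∃ u : ℕ → ℚ, MvPolynomial.aeval (mix v u) p = 0 ∧
      ∀ s ∈ S, R T (mix v u s.1) (mix v u s.2)) := by
    refine DT.exs ?_
    have e : ∀ w : ℕ → ℚ, mix (fun n => w (2 * n)) (fun n => w (2 * n + 1)) = w := by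
      intro w
      funext n
      obtain ⟨m, rfl | rfl⟩ : ∃ m, n = 2 * m ∨ n = 2 * m + 1 := ⟨n / 2, by omega⟩
      · rw [mix_even]
      · rw [mix_odd]
    have h2 : DT 𝒯 (fun T w => MvPolynomial.aeval w p = 0 ∧ ∀ s ∈ S, R T (w s.1) (w s.2)) :=
      (DT.eq ⟨p, fun _ => rfl⟩ PF.zero).and
        (DT.list S fun s => DT.comp2 hR (PF.var s.1) (PF.var s.2))
    refine h2.congr fun T _ w => ?_
    rw [e]
  exact h1.congr fun T hT v => hp _ (hτ T hT) v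

/-! ### codes -/

/-- `(x, y)` is a code -/
def Cx (x y : ℚ) : Prop := ∃ n : ℤ, Cd x y n

open Classical in
/-- the integer coded by `(x, y)` -/
noncomputable def zc (x y : ℚ) : ℤ := if h : ∃ n, Cd x y n then h.choose else 0

lemma zc_eq {x y : ℚ} {n : ℤ} (h : Cd x y n) : zc x y = n := by
  have hex : ∃ n, Cd x y n := ⟨n, h⟩
  unfold zc
  rw [dif_pos hex]
  exact Cd.inj hex.choose_spec h

lemma cd_zc {x y : ℚ} (h : Cx x y) : Cd x y (zc x y) := by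
  obtain ⟨n, hn⟩ := h
  rw [zc_eq hn]
  exact hn

lemma cx_U (n : ℤ) : Cx (ptX (U n)) (ptY (U n)) := ⟨n, rfl, rfl⟩

@[simp] lemma zc_U (n : ℤ) : zc (ptX (U n)) (ptY (U n)) = n := zc_eq ⟨rfl, rfl⟩

lemma dt_col {x1 y1 x2 y2 x3 y3 : (ℕ → ℚ) → ℚ} (h1 : PF x1) (k1 : PF y1) (h2 : PF x2)
    (k2 : PF y2) (h3 : PF x3) (k3 : PF y3) :
    DT 𝒯 (fun _ v => Col (x1 v) (y1 v) (x2 v) (y2 v) (x3 v) (y3 v)) := by
  have h : DT 𝒯 (fun _ v => ∃ u : ℕ → ℚ, y1 v = u 0 * x1 v + u 1 ∧ y2 v = u 0 * x2 v + u 1 ∧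
      y3 v = u 0 * x3 v + u 1 ∧ x1 v + x2 v + x3 v = u 0 ^ 2 ∧
      x1 v * x2 v + x1 v * x3 v + x2 v * x3 v = -2 - 2 * u 0 * u 1 ∧
      x1 v * x2 v * x3 v = u 1 ^ 2) := by
    refine DT.exs ?_
    have l : PF (fun v : ℕ → ℚ => v (2 * 0 + 1)) := PF.od 0
    have m : PF (fun v : ℕ → ℚ => v (2 * 1 + 1)) := PF.od 1
    refine (DT.eq k1.ev ((l.mul h1.ev).add m)).and ?_
    refine (DT.eq k2.ev ((l.mul h2.ev).add m)).and ?_
    refine (DT.eq k3.ev ((l.mul h3.ev).add m)).and ?_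
    refine (DT.eq ((h1.ev.add h2.ev).add h3.ev) (l.pow 2)).and ?_
    refine (DT.eq (((h1.ev.mul h2.ev).add (h1.ev.mul h3.ev)).add (h2.ev.mul h3.ev))
      (((PF.lit 2).neg).sub (((PF.lit 2).mul l).mul m))).and ?_
    exact DT.eq ((h1.ev.mul h2.ev).mul h3.ev) (m.pow 2)
  refine h.congr fun _ _ v => ?_
  constructor
  · rintro ⟨l, m, h⟩
    exact ⟨fun n => if n = 0 then l else m, by simpa using h⟩
  · rintro ⟨u, h⟩
    exact ⟨u 0, u 1, h⟩

lemma dt_code {x y : (ℕ → ℚ) → ℚ} (hx : PF x) (hy : PF y) :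
    DT 𝒯 (fun _ v => Cx (x v) (y v)) := by
  have h : DT 𝒯 (fun _ v => (y v ^ 2 = x v ^ 3 - 2 * x v) ∧
      ∃ u : ℕ → ℚ, u 0 ≠ 0 ∧ x v = - u 0 ^ 2) := by
    refine (DT.eq (hy.pow 2) ((hx.pow 3).sub ((PF.lit 2).mul hx))).and (DT.exs ?_)
    exact (DT.ne (PF.od 0) PF.zero).and (DT.eq hx.ev ((PF.od 0).pow 2).neg)
  refine h.congr fun _ _ v => ?_
  unfold Cx
  rw [← onO_iff]
  refine and_congr_right fun _ => ?_
  constructor
  · rintro ⟨r, h⟩
    exact ⟨fun _ => r, h⟩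
  · rintro ⟨u, h⟩
    exact ⟨u 0, h⟩

lemma dt_const {x : (ℕ → ℚ) → ℚ} (hx : PF x) (q : ℚ) : DT 𝒯 (fun _ v => x v = q) := by
  have h : DT 𝒯 (fun _ v => ((q.den : ℤ) : ℚ) * x v = (q.num : ℚ)) :=
    DT.eq ((PF.int q.den).mul hx) (PF.int q.num)
  refine h.congr fun _ _ v => ?_
  have hd : (q.den : ℚ) ≠ 0 := by exact_mod_cast q.den_nz
  have h2 : q * q.den = q.num := Rat.mul_den_eq_num q
  push_cast
  constructor
  · rintro rfl
    rw [← h2]; ring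
  · intro h
    rw [← h2, mul_comm] at h
    exact mul_right_cancel₀ hd h

/-- the code of a given integer -/
lemma dt_cd_const {x y : (ℕ → ℚ) → ℚ} (hx : PF x) (hy : PF y) (n : ℤ) :
    DT 𝒯 (fun _ v => Cd (x v) (y v) n) :=
  (dt_const hx _).and (dt_const hy _)

theorem dt_sum {x1 y1 x2 y2 x3 y3 x4 y4 : (ℕ → ℚ) → ℚ} (h1 : PF x1) (k1 : PF y1) (h2 : PF x2)
    (k2 : PF y2) (h3 : PF x3) (k3 : PF y3) (h4 : PF x4) (k4 : PF y4) :
    DT 𝒯 (fun _ v => ∃ a b c d : ℤ, Cd (x1 v) (y1 v) a ∧ Cd (x2 v) (y2 v) b ∧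
      Cd (x3 v) (y3 v) c ∧ Cd (x4 v) (y4 v) d ∧ a + b = c + d) := by
  have h : DT 𝒯 (fun R v => (∃ n : ℤ, Cd (x1 v) (y1 v) n) ∧ (∃ n : ℤ, Cd (x2 v) (y2 v) n) ∧
      (∃ n : ℤ, Cd (x3 v) (y3 v) n) ∧ (∃ n : ℤ, Cd (x4 v) (y4 v) n) ∧
      ∃ u : ℕ → ℚ, Col (x1 v) (y1 v) 0 0 (u 0) (- u 1) ∧
        Col (u 0) (u 1) (x2 v) (y2 v) (u 2) (- u 3) ∧
        Col (x3 v) (y3 v) 0 0 (u 4) (- u 5) ∧
        Col (u 4) (u 5) (x4 v) (y4 v) (u 2) (- u 3)) := by
    refine (dt_code h1 k1).and ((dt_code h2 k2).and ((dt_code h3 k3).and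
      ((dt_code h4 k4).and (DT.exs ?_))))
    refine (dt_col h1.ev k1.ev PF.zero PF.zero (PF.od 0) (PF.od 1).neg).and ?_
    refine (dt_col (PF.od 0) (PF.od 1) h2.ev k2.ev (PF.od 2) (PF.od 3).neg).and ?_
    refine (dt_col h3.ev k3.ev PF.zero PF.zero (PF.od 4) (PF.od 5).neg).and ?_
    exact dt_col (PF.od 4) (PF.od 5) h4.ev k4.ev (PF.od 2) (PF.od 3).neg
  refine h.congr fun R hR v => ?_
  have key : ∀ a b c d : ℤ, Cd (x1 v) (y1 v) a → Cd (x2 v) (y2 v) b → Cd (x3 v) (y3 v) c →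
      Cd (x4 v) (y4 v) d → (a + b = c + d ↔
      ∃ u : ℕ → ℚ, Col (x1 v) (y1 v) 0 0 (u 0) (- u 1) ∧
        Col (u 0) (u 1) (x2 v) (y2 v) (u 2) (- u 3) ∧
        Col (x3 v) (y3 v) 0 0 (u 4) (- u 5) ∧
        Col (u 4) (u 5) (x4 v) (y4 v) (u 2) (- u 3)) := by
    rintro a b c d ⟨e1, f1⟩ ⟨e2, f2⟩ ⟨e3, f3⟩ ⟨e4, f4⟩
    rw [e1, f1, e2, f2, e3, f3, e4, f4]
    have hT : ∀ (P : Pt) (hP : P ≠ 0) (x y : ℚ), Col (ptX P) (ptY P) 0 0 x (-y) ↔
        P + T ≠ 0 ∧ x = ptX (P + T) ∧ y = ptY (P + T) := by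
      intro P hP x y
      have := col_add_iff hP T_ne x y
      rwa [ptX_T, ptY_T] at this
    constructor
    · intro hS
      have hab : U a + T + U b = U c + T + U d := by
        have : U a + U b = U c + U d := by
          rw [U, U, U, U, ← add_smul, ← add_smul]
          congr 1
          linarith
        calc U a + T + U b = U a + U b + T := by abel
          _ = U c + U d + T := by rw [this]
          _ = _ := by abel
      refine ⟨fun n => if n = 0 then ptX (U a + T) else if n = 1 then ptY (U a + T)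
        else if n = 2 then ptX (U a + T + U b) else if n = 3 then ptY (U a + T + U b)
        else if n = 4 then ptX (U c + T) else ptY (U c + T), ?_, ?_, ?_, ?_⟩
      · rw [hT _ (U_ne a)]
        exact ⟨U_add_T_ne a, by simp, by simp⟩
      · have := (col_add_iff (U_add_T_ne a) (U_ne b) (ptX (U a + T + U b))
          (ptY (U a + T + U b))).mpr ⟨U_add_T_add_ne a b, rfl, rfl⟩
        simpa using this
      · rw [hT _ (U_ne c)]
        exact ⟨U_add_T_ne c, by simp, by simp⟩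
      · have := (col_add_iff (U_add_T_ne c) (U_ne d) (ptX (U c + T + U d))
          (ptY (U c + T + U d))).mpr ⟨U_add_T_add_ne c d, rfl, rfl⟩
        rw [← hab] at this
        simpa using this
    · rintro ⟨u, hu1, hu2, hu3, hu4⟩
      rw [hT _ (U_ne a)] at hu1
      rw [hT _ (U_ne c)] at hu3
      obtain ⟨-, g1, g2⟩ := hu1
      obtain ⟨-, g3, g4⟩ := hu3
      rw [g1, g2, col_add_iff (U_add_T_ne a) (U_ne b)] at hu2
      rw [g3, g4, col_add_iff (U_add_T_ne c) (U_ne d)] at hu4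
      have h5 : U a + T + U b = U c + T + U d :=
        pt_ext hu2.1 hu4.1 (hu2.2.1.symm.trans hu4.2.1) (hu2.2.2.symm.trans hu4.2.2)
      have h6 : U a + U b = U c + U d := by
        have h7 : U a + U b + T = U c + U d + T := by
          calc U a + U b + T = U a + T + U b := by abel
            _ = _ := by rw [h5]; abel
        exact add_right_cancel h7
      rw [U, U, U, U, ← add_smul, ← add_smul] at h6
      have h8 : ((2 * a + 1 + (2 * b + 1)) - (2 * c + 1 + (2 * d + 1))) • G = 0 := by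
        rw [sub_smul, h6, sub_self]
      have := zsmul_G h8
      linarith
  constructor
  · rintro ⟨a, b, c, d, c1, c2, c3, c4, hS⟩
    exact ⟨⟨a, c1⟩, ⟨b, c2⟩, ⟨c, c3⟩, ⟨d, c4⟩, (key a b c d c1 c2 c3 c4).mp hS⟩
  · rintro ⟨⟨a, c1⟩, ⟨b, c2⟩, ⟨c, c3⟩, ⟨d, c4⟩, hu⟩
    exact ⟨a, b, c, d, c1, c2, c3, c4, (key a b c d c1 c2 c3 c4).mpr hu⟩

end Pool.Agent.J4H62.DQ
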