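import Pool.Agent.J4H62.DQ.Sm
import Pool.Agent.J4H62.DQ.Code
import Pool.Agent.TH255.HC.Main

/-!
# The comparison of heights from a sparse set
-/

set_option autoImplicit false

namespace Pool.Agent.J4H62.DQ

open Pool.Agent.TH255.HC Pool.Agent.TH255.QI

variable {𝒯 : Set ℚ → Prop} {W : Set ℚ → ℚ → ℚ → Prop}

theorem dt_rl (hW : DT 𝒯 (fun T v => W T (v 0) (v 1))) (K : ℕ) :
    DT 𝒯 (fun T v => Rl K (W T) (v 0) (v 1) (v 2)) := by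
  have h : DT 𝒯 (fun T v => ∃ u : ℕ → ℚ,
      (W T (u 0) (u 2 ^ 2 + u 3 ^ 2) ∧ W T (u 1) (u 2 ^ 2 + u 3 ^ 2) ∧
        W T (u 2) (u 2 ^ 2 + u 3 ^ 2) ∧ W T (u 3) (u 2 ^ 2 + u 3 ^ 2) ∧
        W T (u 4) (u 2 ^ 2 + u 3 ^ 2) ∧ W T (u 5) (u 2 ^ 2 + u 3 ^ 2)) ∧
      (v 1 * u 1 = u 0 ∧ u 1 ≠ 0) ∧ (v 2 * u 3 = u 2 ∧ u 3 ≠ 0) ∧
      u 2 * u 4 + u 3 * u 5 = v 0 ^ 2 ∧
      (u 0 ^ 2 ≤ u 2 ^ 2 + u 3 ^ 2 ∧ u 1 ^ 2 ≤ u 2 ^ 2 + u 3 ^ 2) ∧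
      (u 4 ^ 2 ≤ u 2 ^ 2 + u 3 ^ 2 ∧ u 5 ^ 2 ≤ u 2 ^ 2 + u 3 ^ 2) ∧
      (v 0 ≠ 0 ∧ v 0 ^ 8 ≤ ((K : ℤ) : ℚ) * (u 2 ^ 2 + u 3 ^ 2))) := by
    refine DT.exs ?_
    have l : PF (fun v : ℕ → ℚ => v (2 * 2 + 1) ^ 2 + v (2 * 3 + 1) ^ 2) :=
      ((PF.od 2).pow 2).add ((PF.od 3).pow 2)
    refine ((DT.comp2 hW (PF.od 0) l).and ((DT.comp2 hW (PF.od 1) l).and
      ((DT.comp2 hW (PF.od 2) l).and ((DT.comp2 hW (PF.od 3) l).and
      ((DT.comp2 hW (PF.od 4) l).and (DT.comp2 hW (PF.od 5) l)))))).and ?_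
    refine ((DT.eq ((PF.var 1).ev.mul (PF.od 1)) (PF.od 0)).and (DT.ne (PF.od 1) PF.zero)).and ?_
    refine ((DT.eq ((PF.var 2).ev.mul (PF.od 3)) (PF.od 2)).and (DT.ne (PF.od 3) PF.zero)).and ?_
    refine (DT.eq (((PF.od 2).mul (PF.od 4)).add ((PF.od 3).mul (PF.od 5)))
      ((PF.var 0).ev.pow 2)).and ?_
    refine ((DT.le ((PF.od 0).pow 2) l).and (DT.le ((PF.od 1).pow 2) l)).and ?_
    refine ((DT.le ((PF.od 4).pow 2) l).and (DT.le ((PF.od 5).pow 2) l)).and ?_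
    exact (DT.ne (PF.var 0).ev PF.zero).and (DT.le ((PF.var 0).ev.pow 8) ((PF.int K).mul l))
  refine h.congr fun T _ v => ?_
  simp only [Int.cast_natCast]
  constructor
  · rintro ⟨a, b, c, d, e, f, h⟩
    exact ⟨fun n => if n = 0 then a else if n = 1 then b else if n = 2 then c else
      if n = 3 then d else if n = 4 then e else f, by simpa using h⟩
  · rintro ⟨u, h⟩
    exact ⟨u 0, u 1, u 2, u 3, u 4, u 5, h⟩

theorem dt_pc (hW : DT 𝒯 (fun T v => W T (v 0) (v 1))) (K : ℕ) :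
    DT 𝒯 (fun T v => Pc K (W T) (v 0) (v 1)) := by
  have h : DT 𝒯 (fun T v => ∃ u : ℕ → ℚ, Rl K (W T) (u 0) (v 0) (v 1)) :=
    DT.exs (DT.comp3 (Q := fun T => Rl K (W T)) (dt_rl hW K) (PF.od 0) (PF.var 0).ev (PF.var 1).ev)
  refine h.congr fun T _ v => ?_
  constructor
  · rintro ⟨l, h⟩
    exact ⟨fun _ => l, h⟩
  · rintro ⟨u, h⟩
    exact ⟨u 0, h⟩

variable {A δ : ℝ} {k : Cst A δ}

/-- the comparison of indices, on codes -/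
def GQ (q : Cst2 k) (V : ℚ → ℚ → Prop) (w : Fin 6 → ℚ) : Prop :=
  Cx (w 0) (w 1) ∧ Cx (w 2) (w 3) ∧ Cx (w 4) (w 5) ∧
    q.G V (zc (w 0) (w 1)) (zc (w 2) (w 3)) (zc (w 4) (w 5))

theorem dt_G (hW : DT 𝒯 (fun T v => W T (v 0) (v 1))) (q : Cst2 k) :
    DT 𝒯 (fun T v => GQ q (W T) (fun i => v i)) := by
  have h : DT 𝒯 (fun T v => ∃ u : ℕ → ℚ,
      (∃ a b c d : ℤ, Cd (u 0) (u 1) a ∧ Cd (v 2) (v 3) b ∧ Cd (v 0) (v 1) c ∧
        Cd (u 10) (u 11) d ∧ a + b = c + d) ∧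
      (∃ a b c d : ℤ, Cd (u 2) (u 3) a ∧ Cd (u 10) (u 11) b ∧ Cd (v 4) (v 5) c ∧
        Cd (v 4) (v 5) d ∧ a + b = c + d) ∧
      (∃ a b c d : ℤ, Cd (u 4) (u 5) a ∧ Cd (u 10) (u 11) b ∧ Cd (v 2) (v 3) c ∧
        Cd (u 12) (u 13) d ∧ a + b = c + d) ∧
      (∃ a b c d : ℤ, Cd (u 6) (u 7) a ∧ Cd (u 10) (u 11) b ∧ Cd (v 0) (v 1) c ∧
        Cd (u 4) (u 5) d ∧ a + b = c + d) ∧
      (∃ a b c d : ℤ, Cd (u 8) (u 9) a ∧ Cd (u 10) (u 11) b ∧ Cd (v 4) (v 5) c ∧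
        Cd (u 14) (u 15) d ∧ a + b = c + d) ∧
      Cd (u 10) (u 11) 0 ∧ Cd (u 12) (u 13) q.s₀ ∧ Cd (u 14) (u 15) q.d₀ ∧
      Rl k.K (W T) (u 16) (u 0 * u 2) (u 6 * u 10) ∧ Pc k.K (W T) (u 16 ^ q.n₀) (u 8)) := by
    refine DT.exs ?_
    have e : ∀ i, PF (fun v : ℕ → ℚ => v (2 * i)) := fun i => PF.var _
    refine (dt_sum (PF.od 0) (PF.od 1) (e 2) (e 3) (e 0) (e 1) (PF.od 10) (PF.od 11)).and ?_
    refine (dt_sum (PF.od 2) (PF.od 3) (PF.od 10) (PF.od 11) (e 4) (e 5) (e 4) (e 5)).and ?_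
    refine (dt_sum (PF.od 4) (PF.od 5) (PF.od 10) (PF.od 11) (e 2) (e 3) (PF.od 12)
      (PF.od 13)).and ?_
    refine (dt_sum (PF.od 6) (PF.od 7) (PF.od 10) (PF.od 11) (e 0) (e 1) (PF.od 4)
      (PF.od 5)).and ?_
    refine (dt_sum (PF.od 8) (PF.od 9) (PF.od 10) (PF.od 11) (e 4) (e 5) (PF.od 14)
      (PF.od 15)).and ?_
    refine (dt_cd_const (PF.od 10) (PF.od 11) 0).and ?_
    refine (dt_cd_const (PF.od 12) (PF.od 13) q.s₀).and ?_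
    refine (dt_cd_const (PF.od 14) (PF.od 15) q.d₀).and ?_
    refine (DT.comp3 (Q := fun T => Rl k.K (W T)) (dt_rl hW k.K) (PF.od 16)
      ((PF.od 0).mul (PF.od 2)) ((PF.od 6).mul (PF.od 10))).and ?_
    exact DT.comp2 (Q := fun T => Pc k.K (W T)) (dt_pc hW k.K) ((PF.od 16).pow q.n₀) (PF.od 8)
  refine h.congr fun T _ v => ?_
  change Cx (v 0) (v 1) ∧ Cx (v 2) (v 3) ∧ Cx (v 4) (v 5) ∧
    q.G (W T) (zc (v 0) (v 1)) (zc (v 2) (v 3)) (zc (v 4) (v 5)) ↔ _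
  constructor
  · rintro ⟨hm, ht, hd, l, hl, hp⟩
    have cm := cd_zc hm
    have ct := cd_zc ht
    have cd := cd_zc hd
    generalize zc (v 0) (v 1) = m at *
    generalize zc (v 2) (v 3) = t at *
    generalize zc (v 4) (v 5) = d at *
    let u : ℕ → ℚ := fun n => match n with
      | 0 => ptX (U (m - t)) | 1 => ptY (U (m - t))
      | 2 => ptX (U (2 * d)) | 3 => ptY (U (2 * d))
      | 4 => ptX (U (t + q.s₀)) | 5 => ptY (U (t + q.s₀))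
      | 6 => ptX (U (m + t + q.s₀)) | 7 => ptY (U (m + t + q.s₀))
      | 8 => ptX (U (d + q.d₀)) | 9 => ptY (U (d + q.d₀))
      | 10 => ptX (U 0) | 11 => ptY (U 0)
      | 12 => ptX (U q.s₀) | 13 => ptY (U q.s₀)
      | 14 => ptX (U q.d₀) | 15 => ptY (U q.d₀)
      | _ => l
    exact ⟨u, ⟨m - t, t, m, 0, ⟨rfl, rfl⟩, ct, cm, ⟨rfl, rfl⟩, by ring⟩,
      ⟨2 * d, 0, d, d, ⟨rfl, rfl⟩, ⟨rfl, rfl⟩, cd, cd, by ring⟩,
      ⟨t + q.s₀, 0, t, q.s₀, ⟨rfl, rfl⟩, ⟨rfl, rfl⟩, ct, ⟨rfl, rfl⟩, by ring⟩,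
      ⟨m + t + q.s₀, 0, m, t + q.s₀, ⟨rfl, rfl⟩, ⟨rfl, rfl⟩, cm, ⟨rfl, rfl⟩, by ring⟩,
      ⟨d + q.d₀, 0, d, q.d₀, ⟨rfl, rfl⟩, ⟨rfl, rfl⟩, cd, ⟨rfl, rfl⟩, by ring⟩,
      ⟨rfl, rfl⟩, ⟨rfl, rfl⟩, ⟨rfl, rfl⟩, hl, hp⟩
  · rintro ⟨u, ⟨a1, t1, m1, z1, ha1, ht1, hm1, hz1, e1⟩, ⟨a2, z2, d2, d2', ha2, hz2, hd2, hd2', e2⟩,
      ⟨a3, z3, t3, s3, ha3, hz3, ht3, hs3, e3⟩, ⟨a4, z4, m4, a4', ha4, hz4, hm4, ha4', e4⟩,
      ⟨a5, z5, d5, q5, ha5, hz5, hd5, hq5, e5⟩, hz, hs, hd0, hl, hp⟩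
    have i1 := Cd.inj hz1 hz
    have i2 := Cd.inj hz2 hz
    have i3 := Cd.inj hz3 hz
    have i4 := Cd.inj hz4 hz
    have i5 := Cd.inj hz5 hz
    have i6 := Cd.inj hd2' hd2
    have i7 := Cd.inj ht3 ht1
    have i8 := Cd.inj hs3 hs
    have i9 := Cd.inj hm4 hm1
    have i10 := Cd.inj ha4' ha3
    have i11 := Cd.inj hd5 hd2
    have i12 := Cd.inj hq5 hd0
    refine ⟨⟨m1, hm1⟩, ⟨t1, ht1⟩, ⟨d2, hd2⟩, ?_⟩
    rw [zc_eq hm1, zc_eq ht1, zc_eq hd2]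
    have j1 : m1 - t1 = a1 := by omega
    have j2 : 2 * d2 = a2 := by omega
    have j3 : m1 + t1 + q.s₀ = a4 := by omega
    have j4 : d2 + q.d₀ = a5 := by omega
    refine ⟨u 16, ?_, ?_⟩
    · rw [j1, j2, j3, ← ha1.1, ← ha2.1, ← ha4.1, ← hz.1]
      exact hl
    · rw [j4, ← ha5.1]
      exact hp

/-- the iterated comparison, on codes -/
def IQ (q : Cst2 k) (V : ℚ → ℚ → Prop) (n : ℕ) (w : Fin 4 → ℚ) : Prop :=
  Cx (w 0) (w 1) ∧ Cx (w 2) (w 3) ∧ q.I V n (zc (w 0) (w 1)) (zc (w 2) (w 3))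

theorem dt_I (hW : DT 𝒯 (fun T v => W T (v 0) (v 1))) (q : Cst2 k) (n : ℕ) :
    DT 𝒯 (fun T v => IQ q (W T) n (fun i => v i)) := by
  induction n with
  | zero =>
    have h : DT 𝒯 (fun _ v => Cd (v 0) (v 1) 0 ∧ Cx (v 2) (v 3)) :=
      (dt_cd_const (PF.var 0) (PF.var 1) 0).and (dt_code (PF.var 2) (PF.var 3))
    refine h.congr fun T _ v => ?_
    change Cx (v 0) (v 1) ∧ Cx (v 2) (v 3) ∧ zc (v 0) (v 1) = 0 ↔ _
    constructor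
    · rintro ⟨h1, h2, h3⟩
      have := cd_zc h1
      rw [h3] at this
      exact ⟨this, h2⟩
    · rintro ⟨h1, h2⟩
      exact ⟨⟨0, h1⟩, h2, zc_eq h1⟩
  | succ n ih =>
    have h : DT 𝒯 (fun T v => ∃ u : ℕ → ℚ, IQ q (W T) n ![u 0, u 1, v 2, v 3] ∧
        GQ q (W T) ![v 2, v 3, u 0, u 1, v 0, v 1]) := by
      refine DT.exs ?_
      have e : ∀ i, PF (fun v : ℕ → ℚ => v (2 * i)) := fun i => PF.var _
      refine DT.and ?_ ?_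
      · have h1 := DT.comp (n := 4) (Q := fun T w => IQ q (W T) n w) ih
          (F := ![fun v => v (2 * 0 + 1), fun v => v (2 * 1 + 1), fun v => v (2 * 2),
            fun v => v (2 * 3)]) (by
            intro i
            fin_cases i
            · exact PF.od 0
            · exact PF.od 1
            · exact e 2
            · exact e 3)
        refine h1.congr fun T _ v => ?_
        have : (fun i : Fin 4 => (![fun v : ℕ → ℚ => v (2 * 0 + 1), fun v => v (2 * 1 + 1),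
            fun v => v (2 * 2), fun v => v (2 * 3)] : Fin 4 → (ℕ → ℚ) → ℚ) i v) =
            ![v (2 * 0 + 1), v (2 * 1 + 1), v (2 * 2), v (2 * 3)] := by
          funext i
          fin_cases i <;> rfl
        rw [this]
      · have h1 := DT.comp (n := 6) (Q := fun T w => GQ q (W T) w) (dt_G hW q)
          (F := ![fun v => v (2 * 2), fun v => v (2 * 3), fun v => v (2 * 0 + 1),
            fun v => v (2 * 1 + 1), fun v => v (2 * 0), fun v => v (2 * 1)]) (by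
            intro i
            fin_cases i
            · exact e 2
            · exact e 3
            · exact PF.od 0
            · exact PF.od 1
            · exact e 0
            · exact e 1)
        refine h1.congr fun T _ v => ?_
        have : (fun i : Fin 6 => (![fun v : ℕ → ℚ => v (2 * 2), fun v => v (2 * 3),
            fun v => v (2 * 0 + 1), fun v => v (2 * 1 + 1), fun v => v (2 * 0),
            fun v => v (2 * 1)] : Fin 6 → (ℕ → ℚ) → ℚ) i v) =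
            ![v (2 * 2), v (2 * 3), v (2 * 0 + 1), v (2 * 1 + 1), v (2 * 0), v (2 * 1)] := by
          funext i
          fin_cases i <;> rfl
        rw [this]
    refine h.congr fun T _ v => ?_
    change Cx (v 0) (v 1) ∧ Cx (v 2) (v 3) ∧
      (∃ f, q.I (W T) n f (zc (v 2) (v 3)) ∧ q.G (W T) (zc (v 2) (v 3)) f (zc (v 0) (v 1))) ↔
      ∃ u : ℕ → ℚ, (Cx (u 0) (u 1) ∧ Cx (v 2) (v 3) ∧
        q.I (W T) n (zc (u 0) (u 1)) (zc (v 2) (v 3))) ∧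
        (Cx (v 2) (v 3) ∧ Cx (u 0) (u 1) ∧ Cx (v 0) (v 1) ∧
          q.G (W T) (zc (v 2) (v 3)) (zc (u 0) (u 1)) (zc (v 0) (v 1)))
    constructor
    · rintro ⟨h1, h2, f, h3, h4⟩
      refine ⟨fun i => if i = 0 then ptX (U f) else ptY (U f), ?_⟩
      simp only [if_true, one_ne_zero, if_false, zc_U]
      exact ⟨⟨cx_U f, h2, h3⟩, h2, cx_U f, h1, h4⟩
    · rintro ⟨u, ⟨h1, h2, h3⟩, -, -, h4, h5⟩
      exact ⟨h4, h2, zc (u 0) (u 1), h3, h5⟩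

theorem dt_Sm (hW : DT 𝒯 (fun T v => W T (v 0) (v 1))) (q : Cst2 k) (n d₁ M : ℕ) :
    DT 𝒯 (fun T v => q.Sm n d₁ M (W T) (v 0) (v 1)) := by
  have h : DT 𝒯 (fun T v => ∃ u : ℕ → ℚ, Cx (u 0) (u 1) ∧
      Pc k.K (W T) (u 0) (v 1 ^ 2 + ((M : ℤ) : ℚ)) ∧
      GQ q (W T) ![u 0, u 1, u 6, u 7, u 2, u 3] ∧ IQ q (W T) n ![u 4, u 5, u 2, u 3] ∧
      Cd (u 6) (u 7) 0 ∧ Cd (u 8) (u 9) d₁ ∧
      (∃ a b c d : ℤ, Cd (u 10) (u 11) a ∧ Cd (u 6) (u 7) b ∧ Cd (u 4) (u 5) c ∧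
        Cd (u 8) (u 9) d ∧ a + b = c + d) ∧ Pc k.K (W T) (v 0) (u 10)) := by
    refine DT.exs ?_
    refine (dt_code (PF.od 0) (PF.od 1)).and ?_
    refine (DT.comp2 (Q := fun T => Pc k.K (W T)) (dt_pc hW k.K) (PF.od 0)
      (((PF.var 1).ev.pow 2).add (PF.int M))).and ?_
    refine DT.and ?_ (DT.and ?_ ?_)
    · have h1 := DT.comp (n := 6) (Q := fun T w => GQ q (W T) w) (dt_G hW q)
        (F := ![fun v => v (2 * 0 + 1), fun v => v (2 * 1 + 1), fun v => v (2 * 6 + 1),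
          fun v => v (2 * 7 + 1), fun v => v (2 * 2 + 1), fun v => v (2 * 3 + 1)]) (by
          intro i
          fin_cases i
          · exact PF.od 0
          · exact PF.od 1
          · exact PF.od 6
          · exact PF.od 7
          · exact PF.od 2
          · exact PF.od 3)
      refine h1.congr fun T _ v => ?_
      have : (fun i : Fin 6 => (![fun v : ℕ → ℚ => v (2 * 0 + 1), fun v => v (2 * 1 + 1),
          fun v => v (2 * 6 + 1), fun v => v (2 * 7 + 1), fun v => v (2 * 2 + 1),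
          fun v => v (2 * 3 + 1)] : Fin 6 → (ℕ → ℚ) → ℚ) i v) =
          ![v (2 * 0 + 1), v (2 * 1 + 1), v (2 * 6 + 1), v (2 * 7 + 1), v (2 * 2 + 1),
            v (2 * 3 + 1)] := by
        funext i
        fin_cases i <;> rfl
      rw [this]
    · have h1 := DT.comp (n := 4) (Q := fun T w => IQ q (W T) n w) (dt_I hW q n)
        (F := ![fun v => v (2 * 4 + 1), fun v => v (2 * 5 + 1), fun v => v (2 * 2 + 1),
          fun v => v (2 * 3 + 1)]) (by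
          intro i
          fin_cases i
          · exact PF.od 4
          · exact PF.od 5
          · exact PF.od 2
          · exact PF.od 3)
      refine h1.congr fun T _ v => ?_
      have : (fun i : Fin 4 => (![fun v : ℕ → ℚ => v (2 * 4 + 1), fun v => v (2 * 5 + 1),
          fun v => v (2 * 2 + 1), fun v => v (2 * 3 + 1)] : Fin 4 → (ℕ → ℚ) → ℚ) i v) =
          ![v (2 * 4 + 1), v (2 * 5 + 1), v (2 * 2 + 1), v (2 * 3 + 1)] := by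
        funext i
        fin_cases i <;> rfl
      rw [this]
    · refine (dt_cd_const (PF.od 6) (PF.od 7) 0).and ?_
      refine (dt_cd_const (PF.od 8) (PF.od 9) d₁).and ?_
      refine (dt_sum (PF.od 10) (PF.od 11) (PF.od 6) (PF.od 7) (PF.od 4) (PF.od 5) (PF.od 8)
        (PF.od 9)).and ?_
      exact DT.comp2 (Q := fun T => Pc k.K (W T)) (dt_pc hW k.K) (PF.var 0).ev (PF.od 10)
  refine h.congr fun T _ v => ?_
  simp only [Int.cast_natCast]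
  change (∃ m e f : ℤ, Pc k.K (W T) (ptX (U m)) (v 1 ^ 2 + M) ∧ q.G (W T) m 0 e ∧
    q.I (W T) n f e ∧ Pc k.K (W T) (v 0) (ptX (U (f + d₁)))) ↔
    ∃ u : ℕ → ℚ, Cx (u 0) (u 1) ∧ Pc k.K (W T) (u 0) (v 1 ^ 2 + M) ∧
      (Cx (u 0) (u 1) ∧ Cx (u 6) (u 7) ∧ Cx (u 2) (u 3) ∧
        q.G (W T) (zc (u 0) (u 1)) (zc (u 6) (u 7)) (zc (u 2) (u 3))) ∧
      (Cx (u 4) (u 5) ∧ Cx (u 2) (u 3) ∧ q.I (W T) n (zc (u 4) (u 5)) (zc (u 2) (u 3))) ∧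
      Cd (u 6) (u 7) 0 ∧ Cd (u 8) (u 9) d₁ ∧
      (∃ a b c d : ℤ, Cd (u 10) (u 11) a ∧ Cd (u 6) (u 7) b ∧ Cd (u 4) (u 5) c ∧
        Cd (u 8) (u 9) d ∧ a + b = c + d) ∧ Pc k.K (W T) (v 0) (u 10)
  constructor
  · rintro ⟨m, e, f, h1, h2, h3, h4⟩
    let u : ℕ → ℚ := fun n => match n with
      | 0 => ptX (U m) | 1 => ptY (U m)
      | 2 => ptX (U e) | 3 => ptY (U e)
      | 4 => ptX (U f) | 5 => ptY (U f)
      | 6 => ptX (U 0) | 7 => ptY (U 0)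
      | 8 => ptX (U d₁) | 9 => ptY (U d₁)
      | 10 => ptX (U (f + d₁)) | _ => ptY (U (f + d₁))
    refine ⟨u, cx_U m, h1, ⟨cx_U m, cx_U 0, cx_U e, ?_⟩, ⟨cx_U f, cx_U e, ?_⟩, ⟨rfl, rfl⟩,
      ⟨rfl, rfl⟩, ⟨f + d₁, 0, f, d₁, ⟨rfl, rfl⟩, ⟨rfl, rfl⟩, ⟨rfl, rfl⟩, ⟨rfl, rfl⟩, by ring⟩, h4⟩
    · change q.G (W T) (zc (ptX (U m)) (ptY (U m))) (zc (ptX (U 0)) (ptY (U 0)))
        (zc (ptX (U e)) (ptY (U e)))
      rw [zc_U, zc_U, zc_U]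
      exact h2
    · change q.I (W T) n (zc (ptX (U f)) (ptY (U f))) (zc (ptX (U e)) (ptY (U e)))
      rw [zc_U, zc_U]
      exact h3
  · rintro ⟨u, h0, h1, ⟨-, -, -, h2⟩, ⟨h3, -, h4⟩, h5, h6, ⟨a, b, c, d, ha, hb, hc, hd, hs⟩, h7⟩
    have i1 := Cd.inj hb h5
    have i2 := Cd.inj hd h6
    have i3 : zc (u 4) (u 5) = c := zc_eq hc
    refine ⟨zc (u 0) (u 1), zc (u 2) (u 3), zc (u 4) (u 5), ?_, ?_, h4, ?_⟩
    · rw [← (cd_zc h0).1]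
      exact h1
    · rw [zc_eq h5] at h2
      exact h2
    · have : zc (u 4) (u 5) + d₁ = a := by omega
      rw [this, ← ha.1]
      exact h7

/-- the comparison of heights -/
def Cst2.R (q : Cst2 k) (n d₁ M : ℕ) (V : ℚ → ℚ → Prop) (x y : ℚ) : Prop :=
  ∃ l : ℚ, Rl k.K V l x y ∧ q.Sm n d₁ M V l y

theorem dt_R (hW : DT 𝒯 (fun T v => W T (v 0) (v 1))) (q : Cst2 k) (n d₁ M : ℕ) :
    DT 𝒯 (fun T v => q.R n d₁ M (W T) (v 0) (v 1)) := by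
  have h : DT 𝒯 (fun T v => ∃ u : ℕ → ℚ, Rl k.K (W T) (u 0) (v 0) (v 1) ∧
      q.Sm n d₁ M (W T) (u 0) (v 1)) :=
    DT.exs ((DT.comp3 (Q := fun T => Rl k.K (W T)) (dt_rl hW k.K) (PF.od 0) (PF.var 0).ev
      (PF.var 1).ev).and (DT.comp2 (Q := fun T => q.Sm n d₁ M (W T)) (dt_Sm hW q n d₁ M) (PF.od 0)
      (PF.var 1).ev))
  refine h.congr fun T _ v => ?_
  constructor
  · rintro ⟨l, h⟩
    exact ⟨fun _ => l, h⟩
  · rintro ⟨u, h⟩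
    exact ⟨u 0, h⟩

theorem btw_R (q : Cst2 k) : ∃ (τ : Tol) (n d₁ M : ℕ), ∀ V : ℚ → ℚ → Prop, Snd A δ V →
    Cpl A δ V → Btw τ (q.R n d₁ M V) := by
  have hδ := k.hδ
  obtain ⟨n, hn⟩ := exists_pow_lt_of_lt_one (show (0 : ℝ) < 1 - 2 * δ by linarith)
    (show (1 / 2 : ℝ) < 1 by norm_num)
  have hn' : 2 * δ < 1 - (1 / 2 : ℝ) ^ n := by linarith
  obtain ⟨d₁, M, hM, h1⟩ := sm_compl q hn'
  obtain ⟨C, hC, h2⟩ := sm_sound q n d₁ M hM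
  have hpos : (0 : ℝ) < (1 / 2) ^ n := by positivity
  refine ⟨⟨1, 2 * C + k.C, (1 - (1 / 2 : ℝ) ^ n) / 2, by linarith⟩, n, d₁, M, fun V hS hCp => ?_⟩
  constructor
  · intro x y hxy
    change 1 * H x ≤ H y at hxy
    rw [one_mul] at hxy
    obtain ⟨l, hl1, hl2, hl3⟩ := k.compl V hCp x y hxy
    exact ⟨l, hl3, h1 V hCp y l hl1 hl2⟩
  · rintro x y ⟨l, hl, hsm⟩
    obtain ⟨-, h3⟩ := k.sound V hS l x y hl
    have h4 := h2 V hS l y hsm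
    have hly0 : 0 ≤ Real.log (H y) := log_H_nonneg _
    have h5 : (1 + Real.log (H y)) ^ δ ≤ (1 + Real.log (H y)) ^ ((1 - (1 / 2 : ℝ) ^ n) / 2) :=
      Real.rpow_le_rpow_of_exponent_le (by linarith) (by linarith)
    have h6 := mul_le_mul_of_nonneg_left h5 (show 0 ≤ k.C by linarith [k.hC1])
    change Real.log (H x) ≤ Real.log (H y) + (2 * C + k.C) *
      (1 + Real.log (H y)) ^ ((1 - (1 / 2 : ℝ) ^ n) / 2)
    linarith

/-- a class of predicates with small denominators and with multiples of integer vectors -/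
structure Wt (A δ : ℝ) (𝒯 : Set ℚ → Prop) (W : Set ℚ → ℚ → ℚ → Prop) : Prop where
  dt : DT 𝒯 (fun T v => W T (v 0) (v 1))
  snd : ∀ T, 𝒯 T → Snd A δ (W T)
  cpl : ∀ T, 𝒯 T → Cpl A δ (W T)

theorem wt_main {A δ : ℝ} (hA : 0 ≤ A) (hδ0 : 0 ≤ δ) (hδ : δ < 1 / 2) (h : Wt A δ 𝒯 W) :
    DT 𝒯 (fun _ v => ∃ z : ℤ, v 0 = z) ∧
      ∀ P : ℕ → Prop, REPred P → DT 𝒯 (fun _ v => ∃ a : ℕ, v 0 = a ∧ P a) := by
  obtain ⟨k⟩ := exists_cst hA hδ0 hδ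
  obtain ⟨q⟩ := exists_cst2 k
  obtain ⟨τ, n, d₁, M, hb⟩ := btw_R q
  have h1 := dt_R h.dt q n d₁ M
  have h2 : ∀ T, 𝒯 T → Btw τ (q.R n d₁ M (W T)) := fun T hT => hb _ (h.snd T hT) (h.cpl T hT)
  exact ⟨dt_of_dh' (R := fun T => q.R n d₁ M (W T)) h1 h2 dh_int, fun P hP =>
    dt_of_dh' (R := fun T => q.R n d₁ M (W T)) h1 h2 (dh_re hP)⟩

end Pool.Agent.J4H62.DQ
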