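import Pool.Agent.J4H62.DQ.Rel
import Pool.Agent.TH255.HC.Link

/-!
# Heights of the coded integers
-/

set_option autoImplicit false

namespace Pool.Agent.J4H62.DQ

open Pool.Agent.TH255.HC Pool.Agent.TH255.QI

lemma isO_U' (n : ℤ) : IsO (U n) := isO_U n

theorem ht_pt : ∃ c K : ℝ, 0 < c ∧ 0 ≤ K ∧
    (∀ n : ℤ, |Real.log (H (ptX (U n))) - c * (2 * (n : ℝ) + 1) ^ 2| ≤ K) ∧
    ∀ a b : ℤ, |Real.log (H (ptX (U a) * ptX (U b))) - c * (S2 a b : ℝ)| ≤ K := by
  obtain ⟨c, K, hc, hK, h⟩ := ht_mult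
  have h1 : ∀ n : ℤ, |Real.log (H (ptX (U n))) - c * (2 * (n : ℝ) + 1) ^ 2| ≤ K := by
    intro n
    have := h (2 * n + 1) (by omega)
    push_cast at this
    exact this
  refine ⟨c, 2 * K + 1, hc, by linarith, fun n => (h1 n).trans (by linarith), fun a b => ?_⟩
  have ha := abs_le.mp (h1 a)
  have hb := abs_le.mp (h1 b)
  have pa : (0 : ℝ) < H (ptX (U a)) := by exact_mod_cast H_pos _
  have pb : (0 : ℝ) < H (ptX (U b)) := by exact_mod_cast H_pos _
  have pab : (0 : ℝ) < H (ptX (U a) * ptX (U b)) := by exact_mod_cast H_pos _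
  have e1 : c * (S2 a b : ℝ) = c * (2 * (a : ℝ) + 1) ^ 2 + c * (2 * (b : ℝ) + 1) ^ 2 := by
    simp only [S2]
    push_cast
    ring
  have hlog2 : Real.log 2 ≤ 1 := by
    have := Real.log_two_lt_d9
    linarith
  rw [e1, abs_le]
  constructor
  · have h2 : (H (ptX (U a)) : ℝ) * H (ptX (U b)) ≤ 2 * H (ptX (U a) * ptX (U b)) := by
      have h3 := H_prod_ge (isO_U a) (isO_U b)
      have h4 := den_le_H (ptX (U a) * ptX (U b))
      have : H (ptX (U a)) * H (ptX (U b)) ≤ 2 * H (ptX (U a) * ptX (U b)) := by omega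
      exact_mod_cast this
    have h5 := Real.log_le_log (by positivity) h2
    rw [Real.log_mul pa.ne' pb.ne', Real.log_mul two_ne_zero pab.ne'] at h5
    linarith
  · have h2 : (H (ptX (U a) * ptX (U b)) : ℝ) ≤ (H (ptX (U a)) : ℝ) * H (ptX (U b)) := by
      exact_mod_cast H_mul_le _ _
    have h5 := Real.log_le_log pab h2
    rw [Real.log_mul pa.ne' pb.ne'] at h5
    linarith

lemma H_pow (x : ℚ) (n : ℕ) : H (x ^ n) = H x ^ n := by
  unfold H
  rw [Rat.num_pow, Rat.den_pow, Int.natAbs_pow]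
  rcases le_total x.num.natAbs x.den with h | h
  · rw [max_eq_right h, max_eq_right (Nat.pow_le_pow_left h n)]
  · rw [max_eq_left h, max_eq_left (Nat.pow_le_pow_left h n)]

lemma H_nat {l : ℕ} (hl : 1 ≤ l) : H (l : ℚ) = l := by
  unfold H
  rw [Rat.num_natCast, Rat.den_natCast, Int.natAbs_natCast]
  exact max_eq_left hl

/-- the height of `y² + M` -/
lemma H_sq_add (y : ℚ) {M : ℕ} (hM : 1 ≤ M) :
    M ≤ H (y ^ 2 + M) ∧ H y ^ 2 ≤ H (y ^ 2 + M) ∧ H (y ^ 2 + M) ≤ (1 + M) * H y ^ 2 := by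
  have hd0 : (y.den : ℚ) ≠ 0 := by exact_mod_cast y.den_nz
  have hy : y * y.den = y.num := Rat.mul_den_eq_num y
  have e : y ^ 2 + M = (((y.num ^ 2 + M * (y.den : ℤ) ^ 2 : ℤ)) : ℚ) / (((y.den : ℤ) ^ 2 : ℤ) : ℚ) := by
    push_cast
    rw [eq_div_iff (pow_ne_zero 2 hd0), ← hy]
    ring
  have hcop : Nat.Coprime (y.num ^ 2 + M * (y.den : ℤ) ^ 2).natAbs ((y.den : ℤ) ^ 2).natAbs := by
    rw [← Int.isCoprime_iff_nat_coprime]
    have h0 : IsCoprime y.num (y.den : ℤ) := by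
      rw [Int.isCoprime_iff_nat_coprime, Int.natAbs_natCast]
      exact y.reduced
    have h1 : IsCoprime (y.num ^ 2) ((y.den : ℤ) ^ 2) := h0.pow
    exact IsCoprime.add_mul_right_left h1 M
  have hpos : (0 : ℤ) < (y.den : ℤ) ^ 2 := by
    have : (0 : ℤ) < y.den := by exact_mod_cast y.den_pos
    positivity
  have hnum : (y ^ 2 + (M : ℚ)).num = y.num ^ 2 + M * (y.den : ℤ) ^ 2 := by
    rw [e]; exact Rat.num_div_eq_of_coprime hpos hcop
  have hden : ((y ^ 2 + (M : ℚ)).den : ℤ) = (y.den : ℤ) ^ 2 := by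
    rw [e]; exact Rat.den_div_eq_of_coprime hpos hcop
  have hden' : (y ^ 2 + (M : ℚ)).den = y.den ^ 2 := by exact_mod_cast hden
  have hnum' : (y ^ 2 + (M : ℚ)).num.natAbs = y.num.natAbs ^ 2 + M * y.den ^ 2 := by
    rw [hnum]
    have : ((y.num ^ 2 + M * (y.den : ℤ) ^ 2).natAbs : ℤ) =
        ((y.num.natAbs ^ 2 + M * y.den ^ 2 : ℕ) : ℤ) := by
      rw [Int.natAbs_of_nonneg (by positivity)]
      push_cast
      rw [sq_abs]
    exact_mod_cast this
  have hd1 : 1 ≤ y.den := y.den_pos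
  have hd2 : 1 ≤ y.den ^ 2 := Nat.one_le_pow _ _ hd1
  have hH : H (y ^ 2 + M) = y.num.natAbs ^ 2 + M * y.den ^ 2 := by
    unfold H
    rw [hnum', hden']
    apply max_eq_left
    nlinarith [Nat.zero_le (y.num.natAbs ^ 2)]
  rw [hH]
  refine ⟨by nlinarith [Nat.zero_le (y.num.natAbs ^ 2)], ?_, ?_⟩
  · unfold H
    rcases le_total y.num.natAbs y.den with h | h
    · rw [max_eq_right h]
      nlinarith [Nat.zero_le (y.num.natAbs ^ 2)]
    · rw [max_eq_left h]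
      exact Nat.le_add_right _ _
  · have h1 : y.num.natAbs ^ 2 ≤ H y ^ 2 := Nat.pow_le_pow_left (le_max_left _ _) 2
    have h2 : y.den ^ 2 ≤ H y ^ 2 := Nat.pow_le_pow_left (le_max_right _ _) 2
    have h3 := Nat.mul_le_mul_left M h2
    rw [add_mul, one_mul]
    exact Nat.add_le_add h1 h3

/-- the difference of the two quadratic forms -/
lemma S2_gr (m t d s : ℤ) : S2 (m - t) (2 * d) - S2 (m + t + s) 0 =
    16 * d ^ 2 + 8 * d - 4 * ((2 * t + s) * (2 * m + s + 1)) := by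
  simp only [S2]
  ring

end Pool.Agent.J4H62.DQ
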