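import Pool.Agent.J4H62.DQ.Ht

/-!
# The geometric mean of two indices, with a certificate for the common factor
-/

set_option autoImplicit false

namespace Pool.Agent.J4H62.DQ

open Pool.Agent.TH255.HC Pool.Agent.TH255.QI

/-- the constants -/
structure Cst (A δ : ℝ) where
  hA : 0 ≤ A
  hδ0 : 0 ≤ δ
  hδ : δ < 1 / 2
  K : ℕ
  C : ℝ
  c : ℝ
  K₀ : ℝ
  hK1 : 1 ≤ K
  hC1 : 1 ≤ C
  hc : 0 < c
  hK₀ : 0 ≤ K₀
  compl : ∀ W : ℚ → ℚ → Prop, Cpl A δ W → ∀ x y : ℚ, H x ≤ H y →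
    ∃ l : ℕ, 1 ≤ l ∧ Real.log l ≤ A * (1 + Real.log (H y)) ^ δ ∧ Rl K W l x y
  sound : ∀ W : ℚ → ℚ → Prop, Snd A δ W → ∀ l x y : ℚ, Rl K W l x y →
    Real.log (H l) ≤ C * (1 + Real.log (H y)) ∧
    Real.log (H x) ≤ Real.log (H y) + 2 * Real.log (H l) + C * (1 + Real.log (H y)) ^ δ
  hpt : ∀ n : ℤ, |Real.log (H (ptX (U n))) - c * (2 * (n : ℝ) + 1) ^ 2| ≤ K₀
  hpr : ∀ a b : ℤ, |Real.log (H (ptX (U a) * ptX (U b))) - c * (S2 a b : ℝ)| ≤ K₀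

theorem exists_cst {A δ : ℝ} (hA : 0 ≤ A) (hδ0 : 0 ≤ δ) (hδ : δ < 1 / 2) : Nonempty (Cst A δ) := by
  obtain ⟨K, hK1, h1⟩ := rl_compl hA hδ0 hδ.le
  obtain ⟨C, hC, h2⟩ := rl_sound hA hδ0 hδ.le hK1
  obtain ⟨c, K₀, hc, hK₀, h3, h4⟩ := ht_pt
  exact ⟨⟨hA, hδ0, hδ, K, C, c, K₀, hK1, hC, hc, hK₀, h1, h2, h3, h4⟩⟩

variable {A δ : ℝ}

/-- the comparison with the factor left out -/
def Pc (K : ℕ) (W : ℚ → ℚ → Prop) (x y : ℚ) : Prop := ∃ l : ℚ, Rl K W l x y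

lemma Cst.pc_sound (k : Cst A δ) {W : ℚ → ℚ → Prop} (hW : Snd A δ W) {x y : ℚ}
    (h : Pc k.K W x y) : Real.log (H x) ≤ (1 + 3 * k.C) * (1 + Real.log (H y)) := by
  obtain ⟨l, hl⟩ := h
  obtain ⟨h1, h2⟩ := k.sound W hW l x y hl
  have h0 : 0 ≤ Real.log (H y) := log_H_nonneg _
  have h3 : (1 + Real.log (H y)) ^ δ ≤ 1 + Real.log (H y) :=
    rpow_le_self' (by linarith) (by linarith [k.hδ])
  have h4 := mul_le_mul_of_nonneg_left h3 (show 0 ≤ k.C by linarith [k.hC1])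
  nlinarith

lemma Cst.pc_compl (k : Cst A δ) {W : ℚ → ℚ → Prop} (hW : Cpl A δ W) {x y : ℚ}
    (h : H x ≤ H y) : Pc k.K W x y := by
  obtain ⟨l, -, -, hl⟩ := k.compl W hW x y h
  exact ⟨l, hl⟩

lemma H_le_of_log {x y : ℚ} (h : Real.log (H x) ≤ Real.log (H y)) : H x ≤ H y := by
  have hx : (0 : ℝ) < H x := by exact_mod_cast H_pos x
  have hy : (0 : ℝ) < H y := by exact_mod_cast H_pos y
  have := (Real.log_le_log_iff hx hy).mp h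
  exact_mod_cast this

/-- `d²` is at most about `(t + 1) (m + t + 1)` -/
def Gr (K n₀ s₀ d₀ : ℕ) (W : ℚ → ℚ → Prop) (m t d : ℤ) : Prop :=
  ∃ l : ℚ, Rl K W l (ptX (U (m - t)) * ptX (U (2 * d))) (ptX (U (m + t + s₀)) * ptX (U 0)) ∧
    Pc K W (l ^ n₀) (ptX (U (d + d₀)))

lemma S2_zero_le (n : ℤ) {c K₀ ly : ℝ} (hc : 0 < c) (hK₀ : 0 ≤ K₀)
    (h : ly ≤ c * (S2 n 0 : ℝ) + K₀) : 1 + ly ≤ (2 * (1 + K₀ + c) * (1 + |(n : ℝ)|)) ^ 2 := by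
  have e : (S2 n 0 : ℝ) = (2 * (n : ℝ) + 1) ^ 2 + 1 := by
    simp only [S2]; push_cast; ring
  rw [e] at h
  set x := |(n : ℝ)| with hx
  have hx0 : 0 ≤ x := abs_nonneg _
  have h1 : (2 * (n : ℝ) + 1) ^ 2 ≤ (2 * x + 1) ^ 2 := by
    apply sq_le_sq'
    · have := neg_abs_le (n : ℝ); rw [← hx] at this; linarith
    · have := le_abs_self (n : ℝ); rw [← hx] at this; linarith
  have h2 : 1 + ly ≤ (1 + K₀ + c) * (1 + (2 * x + 1) ^ 2) := by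
    have h3 : c * ((2 * (n : ℝ) + 1) ^ 2 + 1) ≤ c * ((2 * x + 1) ^ 2 + 1) :=
      mul_le_mul_of_nonneg_left (by linarith) hc.le
    nlinarith [mul_nonneg (show 0 ≤ 1 + K₀ by linarith) (sq_nonneg (2 * x + 1))]
  have h3 : (1 + K₀ + c) * (1 + (2 * x + 1) ^ 2) ≤ (1 + K₀ + c) * (2 * (1 + x)) ^ 2 := by
    apply mul_le_mul_of_nonneg_left _ (by linarith)
    nlinarith
  have h4 : (1 + K₀ + c) * (2 * (1 + x)) ^ 2 ≤ (1 + K₀ + c) ^ 2 * (2 * (1 + x)) ^ 2 := by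
    apply mul_le_mul_of_nonneg_right _ (by positivity)
    nlinarith
  calc 1 + ly ≤ (1 + K₀ + c) ^ 2 * (2 * (1 + x)) ^ 2 := h2.trans (h3.trans h4)
    _ = _ := by ring

/-- the constants of the comparison of indices -/
structure Cst2 {A δ : ℝ} (k : Cst A δ) where
  n₀ : ℕ
  s₀ : ℕ
  d₀ : ℕ
  C₅ : ℝ
  hn₀ : 8 * (1 + 3 * k.C) ≤ n₀
  hs1 : 1 ≤ s₀
  hs : k.K₀ ≤ 2 * k.c * s₀
  hC₅ : 1 ≤ C₅
  hly : ∀ (m t : ℤ) (ly : ℝ), ly ≤ k.c * (S2 (m + t + s₀) 0 : ℝ) + k.K₀ →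
      1 + ly ≤ (C₅ * (1 + |(m : ℝ)| + |(t : ℝ)|)) ^ 2
  hd : ∀ m t d ly : ℝ, 0 ≤ m → 0 ≤ t → 0 ≤ d → 0 ≤ ly → 1 + ly ≤ (C₅ * (1 + m + t)) ^ 2 →
      1 + m + t ≤ 6 * (d + 1) ^ 2 →
      n₀ * (A * (1 + ly) ^ δ) ≤ k.c * (2 * (d + d₀) + 1) ^ 2 - k.K₀

lemma hn_aux (s₀ : ℕ) (m t : ℤ) :
    1 + |((m + t + s₀ : ℤ) : ℝ)| ≤ (1 + s₀) * (1 + |(m : ℝ)| + |(t : ℝ)|) := by
  have h1 : |((m + t + s₀ : ℤ) : ℝ)| ≤ |(m : ℝ)| + |(t : ℝ)| + s₀ := by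
    push_cast
    have := abs_add_le ((m : ℝ) + t) (s₀ : ℝ)
    have h2 := abs_add_le (m : ℝ) (t : ℝ)
    rw [abs_of_nonneg (Nat.cast_nonneg s₀ : (0 : ℝ) ≤ s₀)] at this
    linarith
  have h2 := abs_nonneg (m : ℝ)
  have h3 := abs_nonneg (t : ℝ)
  have h4 : (0 : ℝ) ≤ s₀ := Nat.cast_nonneg _
  have h5 := mul_nonneg h4 (add_nonneg h2 h3)
  linarith

/-- the power of the height of the right-hand side is linear in the indices -/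
lemma pow_aux {A δ n₀ C₅ c K₀ : ℝ} (hA : 0 ≤ A) (hδ0 : 0 ≤ δ) (hδ : δ < 1 / 2) (hn₀ : 0 ≤ n₀)
    (hC₅ : 1 ≤ C₅) (hc : 0 < c) : ∃ d₀ : ℕ, ∀ m t d ly : ℝ, 0 ≤ m → 0 ≤ t → 0 ≤ d →
      0 ≤ ly → 1 + ly ≤ (C₅ * (1 + m + t)) ^ 2 → 1 + m + t ≤ 6 * (d + 1) ^ 2 →
      n₀ * (A * (1 + ly) ^ δ) ≤ c * (2 * (d + d₀) + 1) ^ 2 - K₀ := by
  have hC0 : 0 < C₅ := by linarith
  obtain ⟨C', hC'0, hC'⟩ := rpow_le_lin' (B := n₀ * A) (θ := 2 * δ) (ε := c / (6 * C₅))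
    (mul_nonneg hn₀ hA) (by linarith) (by linarith) (by positivity)
  obtain ⟨d₀', hd₀'⟩ := exists_nat_gt ((C' + K₀) / (3 * c))
  refine ⟨d₀' + 1, fun m t d ly hm ht hd hly0 h3 h2 => ?_⟩
  have hd00 : (0 : ℝ) ≤ d₀' := Nat.cast_nonneg _
  rw [div_lt_iff₀ (by positivity)] at hd₀'
  set D : ℝ := ((d₀' + 1 : ℕ) : ℝ) with hD
  have hDe : D = d₀' + 1 := by rw [hD]; push_cast; ring
  have hD1 : 1 ≤ D := by linarith
  have hDc : C' + K₀ ≤ 3 * c * D := by rw [hDe]; nlinarith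
  have hx0 : 0 ≤ C₅ * (1 + m + t) := by positivity
  have h4 : (1 + ly) ^ δ ≤ (1 + C₅ * (1 + m + t)) ^ (2 * δ) := by
    calc (1 + ly) ^ δ ≤ ((C₅ * (1 + m + t)) ^ 2) ^ δ := Real.rpow_le_rpow (by linarith) h3 hδ0
      _ = (C₅ * (1 + m + t)) ^ (2 * δ) := by
        rw [← Real.rpow_natCast (C₅ * (1 + m + t)) 2, ← Real.rpow_mul hx0]
        norm_num
      _ ≤ _ := Real.rpow_le_rpow hx0 (by linarith) (by linarith)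
  have h5 : n₀ * (A * (1 + ly) ^ δ) ≤ n₀ * A * (1 + C₅ * (1 + m + t)) ^ (2 * δ) := by
    rw [← mul_assoc]
    exact mul_le_mul_of_nonneg_left h4 (mul_nonneg hn₀ hA)
  have h6 := hC' _ hx0
  have h7 : c / (6 * C₅) * (C₅ * (1 + m + t)) ≤ c * (d + 1) ^ 2 := by
    have e2 : c / (6 * C₅) * (C₅ * (1 + m + t)) = c / 6 * (1 + m + t) := by
      field_simp
    rw [e2]
    have := mul_le_mul_of_nonneg_left h2 hc.le
    linarith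
  have h8 : (d + 1 : ℝ) ^ 2 + 3 * D ≤ (2 * (d + D) + 1) ^ 2 := by
    have := mul_nonneg hd (show 0 ≤ D by linarith)
    nlinarith
  have h9 := mul_le_mul_of_nonneg_left h8 hc.le
  linarith

theorem exists_cst2 (k : Cst A δ) : Nonempty (Cst2 k) := by
  have hc := k.hc
  have hK₀ := k.hK₀
  obtain ⟨n₀, hn₀⟩ := exists_nat_gt (8 * (1 + 3 * k.C))
  obtain ⟨s₀', hs₀'⟩ := exists_nat_gt (k.K₀ / (2 * k.c))
  have hs₀c : k.K₀ ≤ 2 * k.c * ((s₀' + 1 : ℕ) : ℝ) := by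
    rw [div_lt_iff₀ (by positivity)] at hs₀'
    push_cast
    linarith
  have hs0 : (0 : ℝ) ≤ ((s₀' + 1 : ℕ) : ℝ) := Nat.cast_nonneg _
  have hC₃1 : 1 ≤ 2 * (1 + k.K₀ + k.c) := by linarith
  have hC₅1 : 1 ≤ 2 * (1 + k.K₀ + k.c) * (1 + ((s₀' + 1 : ℕ) : ℝ)) :=
    one_le_mul_of_one_le_of_one_le hC₃1 (by linarith)
  obtain ⟨d₀, hd₀⟩ := pow_aux (K₀ := k.K₀) k.hA k.hδ0 k.hδ (Nat.cast_nonneg n₀) hC₅1 hc
  refine ⟨⟨n₀, s₀' + 1, d₀, _, hn₀.le, by omega, hs₀c, hC₅1, ?_, hd₀⟩⟩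
  intro m t ly h
  refine (S2_zero_le _ hc hK₀ h).trans ?_
  apply pow_le_pow_left₀ (by positivity)
  have h5 := mul_le_mul_of_nonneg_left (hn_aux (s₀' + 1) m t) (show 0 ≤ 2 * (1 + k.K₀ + k.c) by
    linarith)
  refine h5.trans (le_of_eq ?_)
  ring

/-- the error term -/
lemma err_aux {δ C₅ N ly : ℝ} (hδ : δ < 1 / 2) (hC : 1 ≤ C₅) (hN : 0 ≤ N) (hly0 : 0 ≤ ly)
    (h : 1 + ly ≤ (C₅ * N) ^ 2) : (1 + ly) ^ δ ≤ C₅ * N := by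
  refine (rpow_le_sqrt (by linarith) hδ.le).trans ?_
  rw [← Real.sqrt_sq (show 0 ≤ C₅ * N from mul_nonneg (by linarith) hN)]
  exact Real.sqrt_le_sqrt h

lemma S2_gr' (m t d : ℤ) (s₀ : ℕ) : (S2 (m - t) (2 * d) : ℝ) = S2 (m + t + s₀) 0 +
    (16 * (d : ℝ) ^ 2 + 8 * d - 4 * ((2 * t + s₀) * (2 * m + s₀ + 1))) := by
  have h := S2_gr m t d s₀
  have h3 : ((S2 (m - t) (2 * d) - S2 (m + t + s₀) 0 : ℤ) : ℝ) =
      ((16 * d ^ 2 + 8 * d - 4 * ((2 * t + s₀) * (2 * m + s₀ + 1)) : ℤ) : ℝ) := by rw [h]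
  push_cast at h3
  linarith

/-- the comparison of indices, with the constants -/
def Cst2.G {k : Cst A δ} (q : Cst2 k) (W : ℚ → ℚ → Prop) (m t d : ℤ) : Prop :=
  Gr k.K q.n₀ q.s₀ q.d₀ W m t d

theorem gr_sound {k : Cst A δ} (q : Cst2 k) : ∃ CG : ℝ, 1 ≤ CG ∧ ∀ W : ℚ → ℚ → Prop,
    Snd A δ W → ∀ m t d : ℤ, q.G W m t d →
      (d : ℝ) ^ 2 ≤ CG * (1 + |(t : ℝ)|) * (1 + |(m : ℝ)| + |(t : ℝ)|) := by
  have hc := k.hc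
  have hK₀ := k.hK₀
  have hC1 := k.hC1
  have hs0 : (0 : ℝ) ≤ q.s₀ := Nat.cast_nonneg _
  have hF : 0 ≤ k.C * q.C₅ := mul_nonneg (by linarith) (by linarith [q.hC₅])
  refine ⟨1 + ((q.s₀ : ℝ) + 2) ^ 2 + (3 * k.K₀ + 1 + 2 * k.c * (q.d₀ : ℝ) ^ 2 + k.C * q.C₅) / k.c,
    ?_, ?_⟩
  · have h1 : (0 : ℝ) ≤ (3 * k.K₀ + 1 + 2 * k.c * (q.d₀ : ℝ) ^ 2 + k.C * q.C₅) / k.c := by
      positivity
    have h2 := sq_nonneg ((q.s₀ : ℝ) + 2)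
    linarith
  rintro W hW m t d ⟨l, hl, hp⟩
  have hp1 := k.pc_sound hW hp
  obtain ⟨-, h2⟩ := k.sound W hW _ _ _ hl
  have hll0 : 0 ≤ Real.log (H l) := log_H_nonneg _
  rw [H_pow, Nat.cast_pow, Real.log_pow] at hp1
  have hly0 : 0 ≤ Real.log (H (ptX (U (m + t + q.s₀)) * ptX (U 0))) := log_H_nonneg _
  have b1 := (abs_le.mp (k.hpr (m - t) (2 * d))).1
  have b2 := (abs_le.mp (k.hpr (m + t + q.s₀) 0)).2
  have b3 := (abs_le.mp (k.hpt (d + q.d₀))).2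
  generalize Real.log (H l) = ll at *
  generalize Real.log (H (ptX (U (m + t + q.s₀)) * ptX (U 0))) = ly at *
  generalize Real.log (H (ptX (U (m - t)) * ptX (U (2 * d)))) = LX at *
  generalize Real.log (H (ptX (U (d + q.d₀)))) = lz at *
  have e0 : (2 * ((d + q.d₀ : ℤ) : ℝ) + 1) = 2 * (d : ℝ) + 1 + 2 * q.d₀ := by push_cast; ring
  rw [e0] at b3
  -- `ll`
  have c1 : 8 * ll ≤ 1 + k.K₀ + k.c * (2 * (d : ℝ) + 1 + 2 * q.d₀) ^ 2 := by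
    have h3 : (8 * (1 + 3 * k.C)) * ll ≤ q.n₀ * ll := mul_le_mul_of_nonneg_right q.hn₀ hll0
    have h4 : (1 + 3 * k.C) * (8 * ll) ≤ (1 + 3 * k.C) * (1 + lz) := by linarith
    have h5 := le_of_mul_le_mul_left h4 (by linarith)
    linarith
  have c2 : (2 * (d : ℝ) + 1 + 2 * q.d₀) ^ 2 ≤ 2 * (2 * (d : ℝ) + 1) ^ 2 + 8 * (q.d₀ : ℝ) ^ 2 := by
    nlinarith [sq_nonneg (2 * (d : ℝ) + 1 - 2 * q.d₀)]
  have c3 : 2 * ll ≤ (1 + k.K₀) / 4 + k.c / 2 * (2 * (d : ℝ) + 1) ^ 2 +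
      2 * k.c * (q.d₀ : ℝ) ^ 2 := by
    have := mul_le_mul_of_nonneg_left c2 hc.le
    linarith
  have hN1 : 1 ≤ 1 + |(m : ℝ)| + |(t : ℝ)| := by
    have ha := abs_nonneg (m : ℝ)
    have hb := abs_nonneg (t : ℝ)
    linarith
  have c4 := err_aux k.hδ q.hC₅ (by linarith) hly0 (q.hly m t ly (by linarith))
  have c5 := mul_le_mul_of_nonneg_left c4 (show 0 ≤ k.C by linarith)
  rw [S2_gr' m t d q.s₀] at b1
  rw [← mul_assoc] at c5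
  refine gr_real (S := S2 (m + t + q.s₀) 0)
    (P := (2 * (t : ℝ) + q.s₀) * (2 * m + q.s₀ + 1)) (ly := ly) (ll := ll) (LX := LX) hc hK₀ hF
    (int_sq_add d) (by linarith [abs_nonneg (t : ℝ)]) hN1 ?_ ?_ ?_ c3 (prod_lin_le t m hs0)
  · linarith
  · linarith
  · linarith

theorem gr_compl {k : Cst A δ} (q : Cst2 k) {W : ℚ → ℚ → Prop} (hW : Cpl A δ W) {m t d : ℤ}
    (hm : 0 ≤ m) (ht : 0 ≤ t) (hd : 0 ≤ d)
    (h1 : 4 * d ^ 2 + 2 * d ≤ (2 * t + q.s₀) * (2 * m + 1)) (h2 : 1 + m + t ≤ 6 * (d + 1) ^ 2) :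
    q.G W m t d := by
  have hc := k.hc
  have hK₀ := k.hK₀
  have hs1 : (1 : ℝ) ≤ q.s₀ := by exact_mod_cast q.hs1
  have hmR : (0 : ℝ) ≤ m := by exact_mod_cast hm
  have htR : (0 : ℝ) ≤ t := by exact_mod_cast ht
  have hdR : (0 : ℝ) ≤ d := by exact_mod_cast hd
  have h1R : 4 * (d : ℝ) ^ 2 + 2 * d ≤ (2 * t + q.s₀) * (2 * m + 1) := by exact_mod_cast h1
  have h2R : 1 + (m : ℝ) + t ≤ 6 * (d + 1) ^ 2 := by exact_mod_cast h2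
  have hle : H (ptX (U (m - t)) * ptX (U (2 * d))) ≤ H (ptX (U (m + t + q.s₀)) * ptX (U 0)) := by
    apply H_le_of_log
    have b1 := (abs_le.mp (k.hpr (m - t) (2 * d))).2
    have b2 := (abs_le.mp (k.hpr (m + t + q.s₀) 0)).1
    rw [S2_gr' m t d q.s₀] at b1
    have h3 : (16 * (d : ℝ) ^ 2 + 8 * d - 4 * ((2 * t + q.s₀) * (2 * m + q.s₀ + 1))) ≤
        -(4 * q.s₀) := by
      have : (1 : ℝ) * q.s₀ ≤ (2 * t + q.s₀) * q.s₀ :=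
        mul_le_mul_of_nonneg_right (by linarith) (by linarith)
      linarith
    have h4 := mul_le_mul_of_nonneg_left h3 hc.le
    have h5 := q.hs
    linarith
  obtain ⟨l, hl1, hl2, hl3⟩ := k.compl W hW _ _ hle
  refine ⟨l, hl3, k.pc_compl hW ?_⟩
  apply H_le_of_log
  rw [H_pow, Nat.cast_pow, Real.log_pow, H_nat hl1]
  have b2 := (abs_le.mp (k.hpr (m + t + q.s₀) 0)).2
  have b3 := (abs_le.mp (k.hpt (d + q.d₀))).1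
  have hly0 : 0 ≤ Real.log (H (ptX (U (m + t + q.s₀)) * ptX (U 0))) := log_H_nonneg _
  have h3 := q.hly m t _ (show Real.log (H (ptX (U (m + t + q.s₀)) * ptX (U 0))) ≤ _ by
    linarith)
  rw [abs_of_nonneg hmR, abs_of_nonneg htR] at h3
  have h4 := q.hd m t d _ hmR htR hdR hly0 h3 h2R
  have h5 : (q.n₀ : ℝ) * Real.log l ≤
      q.n₀ * (A * (1 + Real.log (H (ptX (U (m + t + q.s₀)) * ptX (U 0)))) ^ δ) :=
    mul_le_mul_of_nonneg_left hl2 (Nat.cast_nonneg _)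
  have e0 : (2 * ((d + q.d₀ : ℤ) : ℝ) + 1) = 2 * ((d : ℝ) + q.d₀) + 1 := by push_cast; ring
  rw [e0] at b3
  linarith

end Pool.Agent.J4H62.DQ
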