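import Mathlib

/-!
# Inequalities between powers
-/

set_option autoImplicit false

namespace Pool.Agent.J4H62.DQ

/-- a power with exponent less than `1` is bounded by a linear function with a small slope -/
lemma rpow_le_lin {θ ε : ℝ} (hθ0 : 0 ≤ θ) (hθ : θ < 1) (hε : 0 < ε) :
    ∃ C : ℝ, 0 ≤ C ∧ ∀ x : ℝ, 0 ≤ x → x ^ θ ≤ ε * x + C := by
  set X : ℝ := (1 / ε) ^ (1 / (1 - θ)) with hX
  have h1 : 0 < 1 - θ := by linarith
  have hXpos : 0 < X := Real.rpow_pos_of_pos (by positivity) _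
  have hX1 : X ^ (1 - θ) = 1 / ε := by
    rw [hX, ← Real.rpow_mul (by positivity), one_div_mul_cancel h1.ne', Real.rpow_one]
  refine ⟨X ^ θ, Real.rpow_nonneg hXpos.le _, fun x hx => ?_⟩
  have hXθ := Real.rpow_nonneg hXpos.le θ
  rcases le_total x X with h | h
  · have := Real.rpow_le_rpow hx h hθ0
    have : 0 ≤ ε * x := by positivity
    linarith
  · have hxpos : 0 < x := lt_of_lt_of_le hXpos h
    have h2 : 1 / ε ≤ x ^ (1 - θ) := by
      rw [← hX1]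
      exact Real.rpow_le_rpow hXpos.le h h1.le
    have h3 : x ^ (1 - θ) * x ^ θ = x := by
      rw [← Real.rpow_add hxpos]
      simp
    have h4 : 0 ≤ x ^ θ := Real.rpow_nonneg hx _
    have h5 : 1 / ε * x ^ θ ≤ x := by
      calc 1 / ε * x ^ θ ≤ x ^ (1 - θ) * x ^ θ := mul_le_mul_of_nonneg_right h2 h4
        _ = x := h3
    have h6 : x ^ θ ≤ ε * x := by
      have := mul_le_mul_of_nonneg_left h5 hε.le
      rw [← mul_assoc, mul_one_div_cancel hε.ne', one_mul] at this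
      exact this
    linarith

/-- the same with a factor and `1 + x` -/
lemma rpow_le_lin' {B θ ε : ℝ} (hB : 0 ≤ B) (hθ0 : 0 ≤ θ) (hθ : θ < 1) (hε : 0 < ε) :
    ∃ C : ℝ, 0 ≤ C ∧ ∀ x : ℝ, 0 ≤ x → B * (1 + x) ^ θ ≤ ε * x + C := by
  obtain ⟨C, hC, h⟩ := rpow_le_lin hθ0 hθ (show 0 < ε / (B + 1) by positivity)
  refine ⟨B * C + ε, by positivity, fun x hx => ?_⟩
  have h1 := mul_le_mul_of_nonneg_left (h (1 + x) (by linarith)) hB
  have h2 : B * (ε / (B + 1) * (1 + x)) ≤ ε * (1 + x) := by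
    have : B / (B + 1) ≤ 1 := by
      rw [div_le_one (by positivity)]; linarith
    calc B * (ε / (B + 1) * (1 + x)) = (B / (B + 1)) * (ε * (1 + x)) := by ring
      _ ≤ 1 * (ε * (1 + x)) := mul_le_mul_of_nonneg_right this (by positivity)
      _ = _ := one_mul _
  rw [mul_add] at h1
  linarith

/-- `Λ ≤ t + 2 A √Λ` gives `Λ ≤ 4 A² + 2 t` -/
lemma solve_sqrt' {A t Λ : ℝ} (hΛ : 0 ≤ Λ) (h : Λ ≤ t + 2 * A * √Λ) : Λ ≤ 4 * A ^ 2 + 2 * t := by
  have h1 := Real.sq_sqrt hΛ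
  nlinarith [sq_nonneg (√Λ - 2 * A)]

/-- for `1 ≤ x` and `δ ≤ 1 / 2`, `x ^ δ ≤ √x` -/
lemma rpow_le_sqrt {x δ : ℝ} (hx : 1 ≤ x) (hδ : δ ≤ 1 / 2) : x ^ δ ≤ √x := by
  rw [Real.sqrt_eq_rpow]
  exact Real.rpow_le_rpow_of_exponent_le hx hδ

/-- for `1 ≤ x` and `δ ≤ 1`, `x ^ δ ≤ x` -/
lemma rpow_le_self' {x δ : ℝ} (hx : 1 ≤ x) (hδ : δ ≤ 1) : x ^ δ ≤ x := by
  have := Real.rpow_le_rpow_of_exponent_le hx hδ
  rwa [Real.rpow_one] at this

/-- the power of a product with a factor at least `1` -/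
lemma mul_rpow_le {C x δ : ℝ} (hC : 1 ≤ C) (hx : 0 ≤ x) (hδ : δ ≤ 1) :
    (C * x) ^ δ ≤ C * x ^ δ := by
  rw [Real.mul_rpow (by linarith) hx]
  exact mul_le_mul_of_nonneg_right (rpow_le_self' hC hδ) (Real.rpow_nonneg hx _)

lemma abs_lin_le (t : ℝ) {s : ℝ} (hs : 0 ≤ s) : |2 * t + s| ≤ (s + 2) * (1 + |t|) := by
  have h := abs_add_le (2 * t) s
  rw [abs_mul, abs_two, abs_of_nonneg hs] at h
  have := mul_nonneg hs (abs_nonneg t)
  linarith

lemma prod_lin_le (t m : ℝ) {s : ℝ} (hs : 0 ≤ s) :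
    (2 * t + s) * (2 * m + s + 1) ≤ (s + 2) ^ 2 * ((1 + |t|) * (1 + |m| + |t|)) := by
  have h1 := abs_lin_le t hs
  have h2 : |2 * m + s + 1| ≤ (s + 2) * (1 + |m| + |t|) := by
    have h := abs_add_le (2 * m) (s + 1)
    rw [abs_mul, abs_two, abs_of_nonneg (show 0 ≤ s + 1 by linarith), ← add_assoc] at h
    have h3 := mul_nonneg hs (abs_nonneg m)
    have h4 := mul_nonneg (show 0 ≤ s + 2 by linarith) (abs_nonneg t)
    linarith
  calc (2 * t + s) * (2 * m + s + 1) ≤ |2 * t + s| * |2 * m + s + 1| := by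
        rw [← abs_mul]; exact le_abs_self _
    _ ≤ ((s + 2) * (1 + |t|)) * ((s + 2) * (1 + |m| + |t|)) :=
        mul_le_mul h1 h2 (abs_nonneg _) (by positivity)
    _ = _ := by ring

lemma int_sq_add (d : ℤ) : (0 : ℝ) ≤ (d : ℝ) ^ 2 + d := by
  have h3 : (0 : ℤ) ≤ d ^ 2 + d := by
    rcases le_or_gt 0 d with h | h
    · nlinarith
    · nlinarith
  exact_mod_cast h3

lemma gr_real {c K₀ S P d d₀ F N ly ll LX s T : ℝ} (hc : 0 < c) (hK₀ : 0 ≤ K₀) (hF : 0 ≤ F)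
    (hq : 0 ≤ d ^ 2 + d) (hT : 1 ≤ T) (hN : 1 ≤ N)
    (b1 : c * (S + (16 * d ^ 2 + 8 * d - 4 * P)) - K₀ ≤ LX) (h2 : LX ≤ ly + 2 * ll + F * N)
    (b2 : ly ≤ c * S + K₀)
    (c3 : 2 * ll ≤ (1 + K₀) / 4 + c / 2 * (2 * d + 1) ^ 2 + 2 * c * d₀ ^ 2)
    (c6 : P ≤ (s + 2) ^ 2 * (T * N)) :
    d ^ 2 ≤ (1 + (s + 2) ^ 2 + (3 * K₀ + 1 + 2 * c * d₀ ^ 2 + F) / c) * T * N := by
  have hTN : 1 ≤ T * N := one_le_mul_of_one_le_of_one_le hT hN
  have hNT : N ≤ T * N := le_mul_of_one_le_left (by linarith) hT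
  set G : ℝ := 3 * K₀ + 1 + 2 * c * d₀ ^ 2 with hG
  have hG0 : 0 ≤ G := by positivity
  have h3 := mul_le_mul_of_nonneg_left c6 hc.le
  have h4 := mul_nonneg hc.le hq
  have h5 : G ≤ G * (T * N) := le_mul_of_one_le_right hG0 hTN
  have h6 : F * N ≤ F * (T * N) := mul_le_mul_of_nonneg_left hNT hF
  have h7 : c ≤ c * (T * N) := le_mul_of_one_le_right hc.le hTN
  have h8 : 0 ≤ c * ((s + 2) ^ 2 * (T * N)) := by positivity
  have h9 : c * (8 * d ^ 2) ≤ 4 * (c * P) + G + F * N + c / 2 := by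
    rw [hG]
    nlinarith
  have e2 : c * ((1 + (s + 2) ^ 2 + (G + F) / c) * T * N) = c * (T * N) +
      c * ((s + 2) ^ 2 * (T * N)) + (G + F) * (T * N) := by
    field_simp
  have h10 : c * (8 * d ^ 2) ≤ c * (8 * ((1 + (s + 2) ^ 2 + (G + F) / c) * T * N)) := by
    have e3 : c * (8 * ((1 + (s + 2) ^ 2 + (G + F) / c) * T * N)) =
      8 * (c * ((1 + (s + 2) ^ 2 + (G + F) / c) * T * N)) := by ring
    rw [e3, e2]
    have h11 : 0 ≤ G * (T * N) := by positivity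
    have h12 : 0 ≤ F * (T * N) := by positivity
    have h13 : 0 ≤ c * (T * N) := by positivity
    linarith
  have := le_of_mul_le_mul_left h10 hc
  linarith

/-- an integer `d` with `4 d² + 2 d ≤ N` and `N ≤ 6 (d + 1)²` -/
lemma exists_root (N : ℕ) : ∃ d : ℕ, 4 * d ^ 2 + 2 * d ≤ N ∧ N ≤ 6 * (d + 1) ^ 2 := by
  have hex : ∃ d : ℕ, N < 4 * (d + 1) ^ 2 + 2 * (d + 1) := ⟨N, by nlinarith⟩
  refine ⟨Nat.find hex, ?_, ?_⟩
  · rcases Nat.eq_zero_or_pos (Nat.find hex) with h | h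
    · rw [h]; omega
    · have h1 := Nat.find_min hex (m := Nat.find hex - 1) (by omega)
      rw [Nat.sub_add_cancel h] at h1
      omega
  · have h1 := Nat.find_spec hex
    nlinarith

end Pool.Agent.J4H62.DQ
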