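import Pool.Agent.TH255.QI.Rel
import Pool.Agent.J4H62.DQ.Num

/-!
# Comparing heights by means of numbers known up to a common factor
-/

set_option autoImplicit false

namespace Pool.Agent.J4H62.DQ

open Pool.Agent.TH255.HC Pool.Agent.TH255.QI

/-- the comparison of heights with the factor `l`: `x = a / b`, `y = c / d`, `c e + d f = l²` -/
def Rl (K : ℕ) (W : ℚ → ℚ → Prop) (l x y : ℚ) : Prop :=
  ∃ a b c d e f : ℚ, (W a (c ^ 2 + d ^ 2) ∧ W b (c ^ 2 + d ^ 2) ∧ W c (c ^ 2 + d ^ 2) ∧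
      W d (c ^ 2 + d ^ 2) ∧ W e (c ^ 2 + d ^ 2) ∧ W f (c ^ 2 + d ^ 2)) ∧
    (x * b = a ∧ b ≠ 0) ∧ (y * d = c ∧ d ≠ 0) ∧ c * e + d * f = l ^ 2 ∧
    (a ^ 2 ≤ c ^ 2 + d ^ 2 ∧ b ^ 2 ≤ c ^ 2 + d ^ 2) ∧
    (e ^ 2 ≤ c ^ 2 + d ^ 2 ∧ f ^ 2 ≤ c ^ 2 + d ^ 2) ∧
    (l ≠ 0 ∧ l ^ 8 ≤ K * (c ^ 2 + d ^ 2))

/-- the denominators of the elements of `W` -/
def Snd (A δ : ℝ) (W : ℚ → ℚ → Prop) : Prop :=
  ∀ a s, W a s → Real.log a.den ≤ A * (1 + Real.log (max 1 |(s : ℝ)|)) ^ δ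

/-- integer vectors have multiples in `W` -/
def Cpl (A δ : ℝ) (W : ℚ → ℚ → Prop) : Prop :=
  ∀ V : ℕ, 1 ≤ V → ∀ v : Fin 6 → ℤ, (∀ i, |v i| ≤ 2 * V) →
    ∃ l : ℕ, 1 ≤ l ∧ Real.log l ≤ A * (1 + Real.log V) ^ δ ∧
      ∀ s : ℚ, (V : ℚ) ≤ s → ∀ i, W ((l : ℚ) * v i) s

lemma den_le_exp {t : ℚ} {E : ℝ} (h : Real.log t.den ≤ E) : (t.den : ℝ) ≤ Real.exp E := by
  have h7 : (0 : ℝ) < t.den := by exact_mod_cast t.den_pos
  rw [← Real.exp_log h7]
  exact Real.exp_le_exp.mpr h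

lemma H_le_max_mul (x : ℚ) : (H x : ℝ) ≤ max 1 |(x : ℝ)| * x.den := by
  have h : (H x : ℝ) = max (x.num.natAbs : ℝ) (x.den : ℝ) := by
    unfold H; push_cast; rfl
  rw [h, abs_num]
  have hd : (0 : ℝ) ≤ x.den := Nat.cast_nonneg _
  apply max_le
  · exact mul_le_mul_of_nonneg_right (le_max_right _ _) hd
  · calc (x.den : ℝ) = 1 * x.den := (one_mul _).symm
      _ ≤ _ := mul_le_mul_of_nonneg_right (le_max_left _ _) hd

lemma inv_of_mul {w z q : ℚ} (hw : w ≠ 0) (hq : q ≠ 0) (h : w * z = q) : w⁻¹ = z * q⁻¹ := by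
  rw [← h, mul_inv]
  have hz : z ≠ 0 := by
    rintro rfl
    exact hq (by rw [← h, mul_zero])
  field_simp

lemma size_bound' {y c d e f l : ℚ} (hl : l ≠ 0) (hd : d ≠ 0) (h : y * d = c)
    (h1 : c * e + d * f = l ^ 2) {X : ℝ} (he : (e.den : ℝ) ≤ X) (hf : (f.den : ℝ) ≤ X) :
    |(c : ℝ)| ≤ H y * X ^ 2 * (H l : ℝ) ^ 2 ∧ |(d : ℝ)| ≤ H y * X ^ 2 * (H l : ℝ) ^ 2 := by
  have hX : 0 ≤ X := le_trans (Nat.cast_nonneg _) he
  have hl2 : l ^ 2 ≠ 0 := pow_ne_zero 2 hl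
  have hlden : (((l ^ 2)⁻¹).den : ℝ) ≤ (H l : ℝ) ^ 2 := by
    rw [Rat.den_inv_of_ne_zero hl2, Rat.num_pow, Int.natAbs_pow]
    have h0 : l.num.natAbs ≤ H l := le_max_left _ _
    exact_mod_cast Nat.pow_le_pow_left h0 2
  have key : ∀ {w g k m : ℚ}, w ≠ 0 → w⁻¹ = (g * k + m) * (l ^ 2)⁻¹ → (g.den : ℝ) ≤ H y →
      (k.den : ℝ) ≤ X → (m.den : ℝ) ≤ X → |(w : ℝ)| ≤ H y * X ^ 2 * (H l : ℝ) ^ 2 := by
    intro w g k m hw hwe hg hk hm
    refine (abs_le_den_inv hw).trans ?_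
    have h2 : (w⁻¹).den ≤ g.den * k.den * m.den * ((l ^ 2)⁻¹).den := by
      rw [hwe]
      refine (den_mul_le _ _).trans (Nat.mul_le_mul_right _ ?_)
      exact (den_add_le _ _).trans (Nat.mul_le_mul_right _ (den_mul_le _ _))
    calc ((w⁻¹).den : ℝ) ≤ g.den * k.den * m.den * ((l ^ 2)⁻¹).den := by exact_mod_cast h2
      _ ≤ H y * X * X * (H l : ℝ) ^ 2 := by
          apply mul_le_mul _ hlden (Nat.cast_nonneg _) (by positivity)
          apply mul_le_mul (mul_le_mul hg hk (Nat.cast_nonneg _) (Nat.cast_nonneg _)) hm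
            (Nat.cast_nonneg _) (by positivity)
      _ = H y * X ^ 2 * (H l : ℝ) ^ 2 := by ring
  constructor
  · by_cases hc : c = 0
    · rw [hc]
      simp only [Rat.cast_zero, abs_zero]
      positivity
    · have hy : y ≠ 0 := by
        rintro rfl
        exact hc (by rw [← h, zero_mul])
      refine key (g := y⁻¹) (k := f) (m := e) hc ?_ ?_ hf he
      · apply inv_of_mul hc hl2
        rw [← h1, ← h]
        field_simp
        ring
      · rw [Rat.den_inv_of_ne_zero hy]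
        have : y.num.natAbs ≤ H y := le_max_left _ _
        exact_mod_cast this
  · refine key (g := y) (k := e) (m := f) hd ?_ ?_ he hf
    · apply inv_of_mul hd hl2
      rw [← h1, ← h]
      ring
    · have : y.den ≤ H y := le_max_right _ _
      exact_mod_cast this

/-- soundness of the comparison -/
theorem rl_sound {A δ : ℝ} (hA : 0 ≤ A) (hδ0 : 0 ≤ δ) (hδ : δ ≤ 1 / 2) {K : ℕ} (hK : 1 ≤ K) :
    ∃ C : ℝ, 1 ≤ C ∧ ∀ W : ℚ → ℚ → Prop, Snd A δ W → ∀ l x y : ℚ, Rl K W l x y →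
      Real.log (H l) ≤ C * (1 + Real.log (H y)) ∧
      Real.log (H x) ≤ Real.log (H y) + 2 * Real.log (H l) + C * (1 + Real.log (H y)) ^ δ := by
  set kk : ℝ := Real.log K with hkk
  have hkk0 : 0 ≤ kk := Real.log_natCast_nonneg _
  set C₂ : ℝ := 576 * A ^ 2 + 2 * kk + 10 with hC₂
  have hC₂1 : 10 ≤ C₂ := by nlinarith [sq_nonneg A]
  refine ⟨C₂ + 4 * A * C₂ + kk + 1, by nlinarith [mul_nonneg hA (show 0 ≤ C₂ by linarith)], ?_⟩
  rintro W hW l x y ⟨a, b, c, d, e, f, ⟨ha, hb, hc, hd, he, hf⟩, ⟨hxb, hb0⟩, ⟨hyd, hd0⟩, hbez,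
    ⟨i1, i2⟩, ⟨i3, i4⟩, hl0, hl8⟩
  set s : ℚ := c ^ 2 + d ^ 2 with hs
  have hs0 : 0 ≤ s := by positivity
  set L : ℝ := √((c : ℝ) ^ 2 + (d : ℝ) ^ 2) with hL
  have hLs : L ^ 2 = (s : ℝ) := by
    rw [hL, Real.sq_sqrt (by positivity), hs]
    push_cast
    rfl
  have hL0 : 0 ≤ L := Real.sqrt_nonneg _
  have hbd : ∀ t : ℚ, t ^ 2 ≤ s → |(t : ℝ)| ≤ L := by
    intro t ht
    rw [hL]
    apply Real.abs_le_sqrt
    exact_mod_cast ht
  set M : ℝ := max 1 L with hM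
  have hM1 : 1 ≤ M := le_max_left _ _
  have hLM : L ≤ M := le_max_right _ _
  set lM : ℝ := Real.log M with hlM
  have hlM0 : 0 ≤ lM := Real.log_nonneg hM1
  have hmax : max 1 |(s : ℝ)| = M ^ 2 := by
    rw [← hLs, abs_of_nonneg (by positivity)]
    rcases le_total 1 L with h | h
    · rw [hM, max_eq_right h, max_eq_right (one_le_pow₀ h)]
    · rw [hM, max_eq_left h, max_eq_left (pow_le_one₀ hL0 h)]
      norm_num
  set Λ : ℝ := 1 + 2 * lM with hΛ
  have hΛ1 : 1 ≤ Λ := by linarith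
  have hΛe : 1 + Real.log (max 1 |(s : ℝ)|) = Λ := by
    rw [hmax, Real.log_pow, hΛ]
    push_cast
    rfl
  set E : ℝ := A * Λ ^ δ with hE
  have hE0 : 0 ≤ E := mul_nonneg hA (Real.rpow_nonneg (by linarith) _)
  have hEs : E ≤ A * √Λ := mul_le_mul_of_nonneg_left (rpow_le_sqrt hΛ1 hδ) hA
  have hden : ∀ t : ℚ, W t s → (t.den : ℝ) ≤ Real.exp E := by
    intro t ht
    apply den_le_exp
    have := hW t s ht
    rwa [hΛe] at this
  have hdlog : ∀ t : ℚ, W t s → Real.log t.den ≤ E := by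
    intro t ht
    have := hW t s ht
    rwa [hΛe] at this
  set ly : ℝ := Real.log (H y) with hly
  set ll : ℝ := Real.log (H l) with hll
  have hly0 : 0 ≤ ly := log_H_nonneg _
  have hll0 : 0 ≤ ll := log_H_nonneg _
  have hHy : (1 : ℝ) ≤ H y := by exact_mod_cast H_pos y
  have hHx : (1 : ℝ) ≤ H x := by exact_mod_cast H_pos x
  have hHl : (1 : ℝ) ≤ H l := by exact_mod_cast H_pos l
  have hlog2 : Real.log 2 ≤ 1 := by
    have := Real.log_two_lt_d9
    linarith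
  -- the denominator of `l`
  have hdl : Real.log l.den ≤ 2 * E := by
    have h1 : (l ^ 2).den = l.den ^ 2 := by rw [Rat.den_pow]
    have h2 : l.den ^ 2 ≤ (c.den * e.den) * (d.den * f.den) := by
      rw [← h1, ← hbez]
      refine (den_add_le _ _).trans (Nat.mul_le_mul (den_mul_le _ _) (den_mul_le _ _))
    have p1 : (0 : ℝ) < c.den := by exact_mod_cast c.den_pos
    have p2 : (0 : ℝ) < e.den := by exact_mod_cast e.den_pos
    have p3 : (0 : ℝ) < d.den := by exact_mod_cast d.den_pos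
    have p4 : (0 : ℝ) < f.den := by exact_mod_cast f.den_pos
    have p5 : (0 : ℝ) < l.den := by exact_mod_cast l.den_pos
    have h3 : ((l.den : ℝ)) ^ 2 ≤ (c.den * e.den) * (d.den * f.den) := by exact_mod_cast h2
    have h4 := Real.log_le_log (by positivity) h3
    rw [Real.log_pow, Real.log_mul (by positivity) (by positivity),
      Real.log_mul p1.ne' p2.ne', Real.log_mul p3.ne' p4.ne'] at h4
    have q1 := hdlog c hc
    have q2 := hdlog e he
    have q3 := hdlog d hd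
    have q4 := hdlog f hf
    push_cast at h4
    linarith
  -- the size of `l`
  have hsl : Real.log (max 1 |(l : ℝ)|) ≤ kk / 8 + lM / 4 := by
    have h1 : (max 1 |(l : ℝ)|) ^ 8 ≤ K * M ^ 2 := by
      have hK1 : (1 : ℝ) ≤ K := by exact_mod_cast hK
      rcases le_total 1 |(l : ℝ)| with h | h
      · rw [max_eq_right h]
        have h2 : |(l : ℝ)| ^ 8 ≤ K * L ^ 2 := by
          rw [hLs]
          have h3 : |(l : ℝ)| ^ 8 = (l : ℝ) ^ 8 := Even.pow_abs (by decide) _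
          rw [h3]
          exact_mod_cast hl8
        have h3 : L ^ 2 ≤ M ^ 2 := pow_le_pow_left₀ hL0 hLM 2
        nlinarith
      · rw [max_eq_left h, one_pow]
        have : 1 ≤ M ^ 2 := one_le_pow₀ hM1
        nlinarith
    have h0 : (0 : ℝ) < K := by exact_mod_cast hK
    have h2 := Real.log_le_log (by positivity) h1
    rw [Real.log_pow, Real.log_mul (by positivity) (by positivity), Real.log_pow] at h2
    push_cast at h2
    linarith
  have hllb : ll ≤ kk / 8 + lM / 4 + 2 * E := by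
    have h1 := Real.log_le_log (by linarith) (H_le_max_mul l)
    have p5 : (0 : ℝ) < l.den := by exact_mod_cast l.den_pos
    rw [Real.log_mul (by positivity) p5.ne'] at h1
    linarith
  -- the size of `M`
  obtain ⟨s1, s2⟩ := size_bound' hl0 hd0 hyd hbez (hden e he) (hden f hf)
  have hexp : Real.exp E ^ 2 = Real.exp (2 * E) := by
    rw [pow_two, ← Real.exp_add]
    congr 1
    ring
  rw [hexp] at s1 s2
  set Z : ℝ := H y * Real.exp (2 * E) * (H l : ℝ) ^ 2 with hZ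
  have hexp1 : 1 ≤ Real.exp (2 * E) := Real.one_le_exp (by positivity)
  have hZ1 : 1 ≤ Z := by
    rw [hZ]
    have h1 : 1 ≤ (H l : ℝ) ^ 2 := one_le_pow₀ hHl
    exact one_le_mul_of_one_le_of_one_le (one_le_mul_of_one_le_of_one_le hHy hexp1) h1
  have hLle : L ≤ 2 * Z := by
    rw [hL]
    apply Real.sqrt_le_iff.mpr
    refine ⟨by positivity, ?_⟩
    have k1 : (c : ℝ) ^ 2 ≤ Z ^ 2 := by
      rw [← sq_abs]
      exact pow_le_pow_left₀ (abs_nonneg _) s1 2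
    have k2 : (d : ℝ) ^ 2 ≤ Z ^ 2 := by
      rw [← sq_abs]
      exact pow_le_pow_left₀ (abs_nonneg _) s2 2
    nlinarith [sq_nonneg Z]
  have hMZ : lM ≤ 1 + ly + 2 * E + 2 * ll := by
    have k1 : M ≤ 2 * Z := max_le (by linarith) hLle
    have k2 := Real.log_le_log (by linarith) k1
    rw [Real.log_mul two_ne_zero (by positivity), hZ, Real.log_mul (by positivity) (by positivity),
      Real.log_mul (by positivity) (Real.exp_pos _).ne', Real.log_exp, Real.log_pow] at k2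
    push_cast at k2
    linarith
  have hlM2 : lM ≤ 2 + 2 * ly + 12 * E + kk / 2 := by linarith
  have hΛle : Λ ≤ C₂ * (1 + ly) := by
    have k1 : Λ ≤ (5 + kk + 4 * ly) + 2 * (12 * A) * √Λ := by linarith
    have k3 := solve_sqrt' (by linarith) k1
    nlinarith [mul_nonneg (show 0 ≤ C₂ - 8 by linarith) hly0]
  have hly1 : 1 ≤ 1 + ly := by linarith
  have hEle : E ≤ A * C₂ * (1 + ly) ^ δ := by
    rw [hE, mul_assoc]
    apply mul_le_mul_of_nonneg_left _ hA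
    exact (Real.rpow_le_rpow (by linarith) hΛle hδ0).trans
      (mul_rpow_le (by linarith) (by linarith) (by linarith))
  have hone : (1 : ℝ) ≤ (1 + ly) ^ δ := Real.one_le_rpow hly1 hδ0
  have hself : (1 + ly) ^ δ ≤ 1 + ly := rpow_le_self' hly1 (by linarith)
  have hAC : 0 ≤ A * C₂ := mul_nonneg hA (by linarith)
  have hE2 : E ≤ A * C₂ * (1 + ly) := hEle.trans (mul_le_mul_of_nonneg_left hself hAC)
  constructor
  · have h1 : lM ≤ C₂ * (1 + ly) := by linarith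
    nlinarith [mul_nonneg hkk0 hly0, mul_nonneg hAC hly0]
  · have hx1 := H_quot hb0 hxb ((hbd a i1).trans hLM) ((hbd b i2).trans hLM)
    have hx2 : (H x : ℝ) ≤ M * (Real.exp E * Real.exp E) := by
      refine hx1.trans ?_
      rw [mul_assoc]
      apply mul_le_mul_of_nonneg_left _ (by linarith)
      exact mul_le_mul (hden a ha) (hden b hb) (Nat.cast_nonneg _) (Real.exp_pos _).le
    have hx3 : Real.log (H x) ≤ lM + 2 * E := by
      have k1 := Real.log_le_log (by linarith) hx2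
      rw [Real.log_mul (by positivity) (by positivity), ← Real.exp_add, Real.log_exp] at k1
      linarith
    have h2 : (0 : ℝ) ≤ (1 + ly) ^ δ := by linarith
    nlinarith [mul_nonneg hkk0 h2, mul_nonneg (show 0 ≤ C₂ by linarith) h2]

/-- completeness of the comparison -/
theorem rl_compl {A δ : ℝ} (hA : 0 ≤ A) (hδ0 : 0 ≤ δ) (hδ : δ ≤ 1 / 2) :
    ∃ K : ℕ, 1 ≤ K ∧ ∀ W : ℚ → ℚ → Prop, Cpl A δ W → ∀ x y : ℚ, H x ≤ H y →
      ∃ l : ℕ, 1 ≤ l ∧ Real.log l ≤ A * (1 + Real.log (H y)) ^ δ ∧ Rl K W l x y := by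
  obtain ⟨C, hC0, hC⟩ := rpow_le_lin' (B := 6 * A) (θ := δ) (ε := 2) (by positivity) hδ0
    (by linarith) (by norm_num)
  obtain ⟨K, hK⟩ := exists_nat_gt (Real.exp C)
  have hK1 : 1 ≤ K := by
    have : (1 : ℝ) ≤ K := by
      have := Real.one_le_exp hC0
      linarith
    exact_mod_cast this
  refine ⟨K, hK1, fun W hW x y hxy => ?_⟩
  have hcop : IsCoprime y.num (y.den : ℤ) := by
    rw [Int.isCoprime_iff_nat_coprime, Int.natAbs_natCast]
    exact y.reduced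
  have hd : (0 : ℤ) < y.den := by exact_mod_cast y.den_pos
  obtain ⟨e, f, h1, h2, h3⟩ := bezout hd hcop
  obtain ⟨hL1, hL2⟩ := sq_bounds y
  have hL : (H y : ℤ) ^ 2 ≤ y.num ^ 2 + (y.den : ℤ) ^ 2 := by
    have h4 : ((H y ^ 2 : ℕ) : ℤ) ≤ ((y.num.natAbs ^ 2 + y.den ^ 2 : ℕ) : ℤ) := by
      exact_mod_cast hL1
    push_cast at h4
    rwa [sq_abs] at h4
  have hHH : (H x : ℤ) ≤ H y := by exact_mod_cast hxy
  have hHy1 : 1 ≤ H y := H_pos y
  have hHyZ : (1 : ℤ) ≤ H y := by exact_mod_cast hHy1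
  have ha1 : |x.num| ≤ H x := by
    have : x.num.natAbs ≤ H x := le_max_left _ _
    rw [← Int.natCast_natAbs]
    exact_mod_cast this
  have hb1 : (x.den : ℤ) ≤ H x := by
    have : x.den ≤ H x := le_max_right _ _
    exact_mod_cast this
  have hc1 : |y.num| ≤ H y := by
    have : y.num.natAbs ≤ H y := le_max_left _ _
    rw [← Int.natCast_natAbs]
    exact_mod_cast this
  have hd1 : (y.den : ℤ) ≤ H y := by
    have : y.den ≤ H y := le_max_right _ _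
    exact_mod_cast this
  have hx0 : (0 : ℤ) ≤ x.den := Int.natCast_nonneg _
  have ha : x.num ^ 2 ≤ y.num ^ 2 + (y.den : ℤ) ^ 2 := by
    have h5 : x.num ^ 2 ≤ (H x : ℤ) ^ 2 := by
      rw [← sq_abs x.num]
      exact pow_le_pow_left₀ (abs_nonneg _) ha1 2
    nlinarith
  have hb : (x.den : ℤ) ^ 2 ≤ y.num ^ 2 + (y.den : ℤ) ^ 2 := by
    have h5 : (x.den : ℤ) ^ 2 ≤ (H x : ℤ) ^ 2 := pow_le_pow_left₀ hx0 hb1 2
    nlinarith
  have hsum : y.num ^ 2 + (y.den : ℤ) ^ 2 ≤ 2 * (H y : ℤ) ^ 2 := by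
    have h5 : y.num ^ 2 ≤ (H y : ℤ) ^ 2 := by
      rw [← sq_abs y.num]
      exact pow_le_pow_left₀ (abs_nonneg _) hc1 2
    have h6 : (y.den : ℤ) ^ 2 ≤ (H y : ℤ) ^ 2 := pow_le_pow_left₀ hd.le hd1 2
    linarith
  have hlt : ∀ t : ℤ, t ^ 2 ≤ y.num ^ 2 + (y.den : ℤ) ^ 2 → |t| ≤ 2 * (H y : ℤ) := by
    intro t ht
    have : t ^ 2 ≤ (2 * (H y : ℤ)) ^ 2 := by nlinarith
    exact abs_le_of_sq_le_sq this (by linarith)
  obtain ⟨l, hl1, hl2, hl3⟩ := hW (H y) hHy1 ![x.num, x.den, y.num, y.den, e, f] (by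
    intro i
    fin_cases i
    · exact hlt _ ha
    · exact hlt _ hb
    · exact hlt y.num (by nlinarith)
    · exact hlt y.den (by nlinarith [sq_nonneg y.num])
    · exact hlt _ h2
    · exact hlt _ h3)
  refine ⟨l, hl1, hl2, (l : ℚ) * x.num, (l : ℚ) * x.den, (l : ℚ) * y.num, (l : ℚ) * y.den,
    (l : ℚ) * e, (l : ℚ) * f, ?_, ⟨?_, ?_⟩, ⟨?_, ?_⟩, ?_, ⟨?_, ?_⟩, ⟨?_, ?_⟩, ?_, ?_⟩
  · have hlq : (1 : ℚ) ≤ l := by exact_mod_cast hl1
    have hs : ((H y : ℕ) : ℚ) ≤ ((l : ℚ) * y.num) ^ 2 + ((l : ℚ) * y.den) ^ 2 := by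
      have h4 : ((H y : ℚ)) ^ 2 ≤ (y.num : ℚ) ^ 2 + (y.den : ℚ) ^ 2 := by exact_mod_cast hL
      have h5 : (1 : ℚ) ≤ H y := by exact_mod_cast hHy1
      have h6 : (1 : ℚ) ≤ (l : ℚ) ^ 2 := one_le_pow₀ hlq
      nlinarith
    have := hl3 _ hs
    refine ⟨?_, ?_, ?_, ?_, ?_, ?_⟩
    · simpa using this 0
    · simpa using this 1
    · simpa using this 2
    · simpa using this 3
    · simpa using this 4
    · simpa using this 5
  · rw [← Rat.mul_den_eq_num x]; ring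
  · have : (x.den : ℚ) ≠ 0 := by exact_mod_cast x.den_nz
    have h0 : (l : ℚ) ≠ 0 := by exact_mod_cast (by omega : l ≠ 0)
    exact mul_ne_zero h0 this
  · rw [← Rat.mul_den_eq_num y]; ring
  · have : (y.den : ℚ) ≠ 0 := by exact_mod_cast y.den_nz
    have h0 : (l : ℚ) ≠ 0 := by exact_mod_cast (by omega : l ≠ 0)
    exact mul_ne_zero h0 this
  · have h4 : (y.num : ℚ) * e + y.den * f = 1 := by exact_mod_cast h1
    linear_combination (l : ℚ) ^ 2 * h4
  · have h4 : (x.num : ℚ) ^ 2 ≤ (y.num : ℚ) ^ 2 + (y.den : ℚ) ^ 2 := by exact_mod_cast ha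
    nlinarith [mul_le_mul_of_nonneg_left h4 (sq_nonneg (l : ℚ))]
  · have h4 : (x.den : ℚ) ^ 2 ≤ (y.num : ℚ) ^ 2 + (y.den : ℚ) ^ 2 := by exact_mod_cast hb
    nlinarith [mul_le_mul_of_nonneg_left h4 (sq_nonneg (l : ℚ))]
  · have h4 : (e : ℚ) ^ 2 ≤ (y.num : ℚ) ^ 2 + (y.den : ℚ) ^ 2 := by exact_mod_cast h2
    nlinarith [mul_le_mul_of_nonneg_left h4 (sq_nonneg (l : ℚ))]
  · have h4 : (f : ℚ) ^ 2 ≤ (y.num : ℚ) ^ 2 + (y.den : ℚ) ^ 2 := by exact_mod_cast h3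
    nlinarith [mul_le_mul_of_nonneg_left h4 (sq_nonneg (l : ℚ))]
  · exact_mod_cast (by omega : l ≠ 0)
  · -- the size of `l`
    set h : ℝ := Real.log (H y) with hh
    have hh0 : 0 ≤ h := log_H_nonneg _
    have hl0 : (0 : ℝ) < l := by exact_mod_cast (by omega : 0 < l)
    have hH0 : (0 : ℝ) < H y := by exact_mod_cast H_pos y
    have h4 : 6 * Real.log l ≤ 2 * h + C := by
      have := hC h hh0
      linarith
    have h5 : (l : ℝ) ^ 6 ≤ K * (H y : ℝ) ^ 2 := by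
      have e1 : (l : ℝ) ^ 6 = Real.exp (6 * Real.log l) := by
        rw [show (6 : ℝ) * Real.log l = Real.log ((l : ℝ) ^ 6) by rw [Real.log_pow]; norm_num,
          Real.exp_log (by positivity)]
      have e2 : (H y : ℝ) ^ 2 = Real.exp (2 * h) := by
        rw [hh, show (2 : ℝ) * Real.log (H y) = Real.log ((H y : ℝ) ^ 2) by
          rw [Real.log_pow]; norm_num, Real.exp_log (by positivity)]
      rw [e1, e2]
      calc Real.exp (6 * Real.log l) ≤ Real.exp (2 * h + C) := Real.exp_le_exp.mpr h4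
        _ = Real.exp C * Real.exp (2 * h) := by rw [← Real.exp_add]; congr 1; ring
        _ ≤ K * Real.exp (2 * h) := mul_le_mul_of_nonneg_right hK.le (Real.exp_pos _).le
    have h6 : (l : ℚ) ^ 6 ≤ K * ((y.num : ℚ) ^ 2 + (y.den : ℚ) ^ 2) := by
      have h7 : ((H y : ℚ)) ^ 2 ≤ (y.num : ℚ) ^ 2 + (y.den : ℚ) ^ 2 := by exact_mod_cast hL
      have h8 : (l : ℚ) ^ 6 ≤ K * (H y : ℚ) ^ 2 := by exact_mod_cast h5
      have h9 : (0 : ℚ) ≤ K := Nat.cast_nonneg _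
      nlinarith
    nlinarith [mul_le_mul_of_nonneg_left h6 (sq_nonneg (l : ℚ))]

end Pool.Agent.J4H62.DQ
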