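import Pool.Agent.J4H62.DQ.Idx

/-!
# Certificates for numbers of small height
-/

set_option autoImplicit false

namespace Pool.Agent.J4H62.DQ

open Pool.Agent.TH255.HC Pool.Agent.TH255.QI

variable {A δ : ℝ} {k : Cst A δ}

/-- `f` is about `e ^ (1 - 2 ^ (-n))` -/
def Cst2.I (q : Cst2 k) (W : ℚ → ℚ → Prop) : ℕ → ℤ → ℤ → Prop
  | 0, f, _ => f = 0
  | n + 1, f', e => ∃ f, q.I W n f e ∧ q.G W e f f'

lemma th_nonneg (n : ℕ) : (0 : ℝ) ≤ 1 - (1 / 2) ^ n := by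
  have : ((1 : ℝ) / 2) ^ n ≤ 1 := pow_le_one₀ (by norm_num) (by norm_num)
  linarith

lemma th_le_one (n : ℕ) : (1 : ℝ) - (1 / 2) ^ n ≤ 1 := by
  have : (0 : ℝ) ≤ ((1 : ℝ) / 2) ^ n := by positivity
  linarith

lemma i_step {C CG E θ f f' : ℝ} (hC : 1 ≤ C) (hCG : 1 ≤ CG) (hE : 1 ≤ E) (hθ0 : 0 ≤ θ)
    (hθ1 : θ ≤ 1) (hf : |f| ≤ C * E ^ θ) (h : f' ^ 2 ≤ CG * (1 + |f|) * (E + |f|)) :
    |f'| ≤ 2 * C * CG * E ^ ((1 + θ) / 2) := by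
  have hE0 : 0 < E := by linarith
  have h1 : 1 ≤ E ^ θ := Real.one_le_rpow hE hθ0
  have h2 : E ^ θ ≤ E := rpow_le_self' hE hθ1
  have h3 : 1 + |f| ≤ 2 * C * E ^ θ := by nlinarith
  have h4 : E + |f| ≤ 2 * C * E := by nlinarith
  have h5 : (E ^ ((1 + θ) / 2)) ^ 2 = E ^ θ * E := by
    rw [← Real.rpow_natCast, ← Real.rpow_mul hE0.le]
    have : ((1 + θ) / 2) * ((2 : ℕ) : ℝ) = θ + 1 := by push_cast; ring
    rw [this, Real.rpow_add hE0, Real.rpow_one]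
  have h6 : f' ^ 2 ≤ (2 * C * CG * E ^ ((1 + θ) / 2)) ^ 2 := by
    have a1 : (1 + |f|) * (E + |f|) ≤ (2 * C * E ^ θ) * (2 * C * E) :=
      mul_le_mul h3 h4 (by positivity) (by positivity)
    have a2 := mul_le_mul_of_nonneg_left a1 (show 0 ≤ CG by linarith)
    have a3 : 0 ≤ (2 * C * E ^ θ) * (2 * C * E) := by positivity
    have a4 : CG * ((2 * C * E ^ θ) * (2 * C * E)) ≤ CG ^ 2 * ((2 * C * E ^ θ) * (2 * C * E)) := by
      apply mul_le_mul_of_nonneg_right _ a3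
      nlinarith
    calc f' ^ 2 ≤ CG * ((1 + |f|) * (E + |f|)) := by rw [← mul_assoc]; exact h
      _ ≤ CG ^ 2 * ((2 * C * E ^ θ) * (2 * C * E)) := a2.trans a4
      _ = (2 * C * CG) ^ 2 * (E ^ θ * E) := by ring
      _ = _ := by rw [← h5]; ring
  exact abs_le_of_sq_le_sq h6 (by positivity)

lemma i_sound (q : Cst2 k) (n : ℕ) : ∃ C : ℝ, 1 ≤ C ∧ ∀ W : ℚ → ℚ → Prop, Snd A δ W →
    ∀ f e : ℤ, q.I W n f e → |(f : ℝ)| ≤ C * (1 + |(e : ℝ)|) ^ (1 - (1 / 2 : ℝ) ^ n) := by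
  obtain ⟨CG, hCG, hG⟩ := gr_sound q
  induction n with
  | zero =>
    refine ⟨1, le_rfl, fun W _ f e h => ?_⟩
    have h' : f = 0 := h
    rw [h']
    simp only [Int.cast_zero, abs_zero]
    positivity
  | succ n ih =>
    obtain ⟨C, hC, hI⟩ := ih
    refine ⟨2 * C * CG, by nlinarith, ?_⟩
    rintro W hW f' e ⟨f, hf, hg⟩
    have he : 1 ≤ 1 + |(e : ℝ)| := by linarith [abs_nonneg (e : ℝ)]
    have h1 := i_step hC hCG he (th_nonneg n) (th_le_one n) (hI W hW f e hf) (hG W hW e f f' hg)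
    have e1 : (1 + (1 - (1 / 2 : ℝ) ^ n)) / 2 = 1 - (1 / 2 : ℝ) ^ (n + 1) := by
      rw [pow_succ]; ring
    rwa [e1] at h1

lemma root_step (q : Cst2 k) {W : ℚ → ℚ → Prop} (hW : Cpl A δ W) (m t : ℕ) :
    ∃ d : ℕ, q.G W m t d ∧ (2 * t + 1) * (2 * m + 1) ≤ 6 * (d + 1) ^ 2 := by
  obtain ⟨d, h1, h2⟩ := exists_root ((2 * t + q.s₀) * (2 * m + 1))
  have hs := q.hs1
  have h3 : (2 * t + 1) * (2 * m + 1) ≤ (2 * t + q.s₀) * (2 * m + 1) :=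
    Nat.mul_le_mul_right _ (by omega)
  refine ⟨d, gr_compl q hW (Int.natCast_nonneg _) (Int.natCast_nonneg _) (Int.natCast_nonneg _)
    (by exact_mod_cast h1) ?_, h3.trans h2⟩
  have h4 : 1 + m + t ≤ (2 * t + 1) * (2 * m + 1) := by nlinarith [Nat.zero_le (t * m)]
  exact_mod_cast (h4.trans h3).trans h2

lemma i_compl (q : Cst2 k) {W : ℚ → ℚ → Prop} (hW : Cpl A δ W) (e n : ℕ) :
    ∃ f : ℕ, q.I W n f e ∧ ((1 + (e : ℝ)) / 6) ^ (1 - (1 / 2 : ℝ) ^ n) ≤ 1 + f := by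
  induction n with
  | zero =>
    refine ⟨0, rfl, ?_⟩
    simp
  | succ n ih =>
    obtain ⟨f, hf, h⟩ := ih
    obtain ⟨f', hg, h'⟩ := root_step q hW e f
    refine ⟨f', ⟨f, hf, hg⟩, ?_⟩
    set g : ℝ := (1 + (e : ℝ)) / 6 with hgd
    have he0 : (0 : ℝ) ≤ e := Nat.cast_nonneg _
    have hf0 : (0 : ℝ) ≤ f := Nat.cast_nonneg _
    have hf'0 : (0 : ℝ) ≤ f' := Nat.cast_nonneg _
    have hg0 : 0 < g := by rw [hgd]; positivity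
    have h1 : (2 * (f : ℝ) + 1) * (2 * e + 1) ≤ 6 * (f' + 1) ^ 2 := by exact_mod_cast h'
    have h2 : g * (1 + f) ≤ (1 + (f' : ℝ)) ^ 2 := by
      rw [hgd]
      nlinarith [mul_nonneg hf0 he0]
    have h3 : g ^ (1 - (1 / 2 : ℝ) ^ n) * g ≤ (1 + (f' : ℝ)) ^ 2 := by
      have := mul_le_mul_of_nonneg_left h hg0.le
      linarith
    have h4 : (g ^ (1 - (1 / 2 : ℝ) ^ (n + 1))) ^ 2 = g ^ (1 - (1 / 2 : ℝ) ^ n) * g := by
      rw [← Real.rpow_natCast, ← Real.rpow_mul hg0.le]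
      have : (1 - (1 / 2 : ℝ) ^ (n + 1)) * ((2 : ℕ) : ℝ) = (1 - (1 / 2 : ℝ) ^ n) + 1 := by
        rw [pow_succ]; push_cast; ring
      rw [this, Real.rpow_add hg0, Real.rpow_one]
    have h5 : (g ^ (1 - (1 / 2 : ℝ) ^ (n + 1))) ^ 2 ≤ (1 + (f' : ℝ)) ^ 2 := by rw [h4]; exact h3
    exact (abs_le_of_sq_le_sq' h5 (by linarith)).2

/-- `l` has a small height with respect to `y` -/
def Cst2.Sm (q : Cst2 k) (n d₁ M : ℕ) (W : ℚ → ℚ → Prop) (l y : ℚ) : Prop :=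
  ∃ m e f : ℤ, Pc k.K W (ptX (U m)) (y ^ 2 + M) ∧ q.G W m 0 e ∧ q.I W n f e ∧
    Pc k.K W l (ptX (U (f + d₁)))

lemma sq_le_sq_two (m : ℤ) : (m : ℝ) ^ 2 ≤ (2 * (m : ℝ) + 1) ^ 2 := by
  have h : m ^ 2 ≤ (2 * m + 1) ^ 2 := by
    rcases le_or_gt 0 m with h | h
    · nlinarith
    · nlinarith
  exact_mod_cast h

lemma sm_aux1 {C₁ c K₀ m ly lm : ℝ} (hc : 0 < c) (hC₁ : 0 ≤ C₁) (hK₀ : 0 ≤ K₀) (hly : 0 ≤ ly)
    (h : lm ≤ C₁ * (1 + ly)) (hm : c * (2 * m + 1) ^ 2 - K₀ ≤ lm) (h2 : m ^ 2 ≤ (2 * m + 1) ^ 2) :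
    (1 + |m|) ^ 2 ≤ (2 + 2 * (C₁ + K₀) / c) * (1 + ly) := by
  have h3 : c * m ^ 2 ≤ (C₁ + K₀) * (1 + ly) := by
    have := mul_le_mul_of_nonneg_left h2 hc.le
    have := mul_nonneg hK₀ hly
    linarith
  have h4 : m ^ 2 ≤ (C₁ + K₀) / c * (1 + ly) := by
    rw [div_mul_eq_mul_div, le_div_iff₀ hc]
    linarith
  have h5 : (1 + |m|) ^ 2 ≤ 2 + 2 * m ^ 2 := by
    rw [← sq_abs m]
    nlinarith [sq_nonneg (1 - |m|)]
  have e1 : (2 + 2 * (C₁ + K₀) / c) * (1 + ly) = 2 * (1 + ly) + 2 * ((C₁ + K₀) / c * (1 + ly)) := by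
    ring
  rw [e1]
  linarith

lemma sm_aux2 {CG C₂ m e ly : ℝ} (hCG : 1 ≤ CG) (he : e ^ 2 ≤ CG * (1 + |m|))
    (hm : (1 + |m|) ^ 2 ≤ C₂ * (1 + ly)) :
    (1 + |e|) ^ 4 ≤ 16 * CG ^ 2 * C₂ * (1 + ly) := by
  have hm0 := abs_nonneg m
  have h1 : (1 + |e|) ^ 2 ≤ 4 * CG * (1 + |m|) := by
    have h2 : (1 + |e|) ^ 2 ≤ 2 + 2 * e ^ 2 := by
      rw [← sq_abs e]
      nlinarith [sq_nonneg (1 - |e|)]
    have h3 : 1 ≤ CG * (1 + |m|) := one_le_mul_of_one_le_of_one_le hCG (by linarith)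
    linarith
  have h2 : (1 + |e|) ^ 4 = ((1 + |e|) ^ 2) ^ 2 := by ring
  have h3 : ((1 + |e|) ^ 2) ^ 2 ≤ (4 * CG * (1 + |m|)) ^ 2 := pow_le_pow_left₀ (by positivity) h1 2
  have h4 : (4 * CG * (1 + |m|)) ^ 2 = 16 * CG ^ 2 * (1 + |m|) ^ 2 := by ring
  have h5 := mul_le_mul_of_nonneg_left hm (show 0 ≤ 16 * CG ^ 2 by positivity)
  rw [h2]
  linarith

lemma sm_aux3 {C₃ CI E θ ly f : ℝ} (hC₃ : 1 ≤ C₃) (hCI : 1 ≤ CI) (hE : 1 ≤ E) (hθ0 : 0 ≤ θ)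
    (hθ1 : θ ≤ 1) (hly : 0 ≤ ly) (h : E ^ 4 ≤ C₃ * (1 + ly)) (hf : |f| ≤ CI * E ^ θ) :
    1 + f ^ 2 ≤ 2 * CI ^ 2 * C₃ * (1 + ly) ^ (θ / 2) := by
  have hE0 : 0 < E := by linarith
  have h1 : f ^ 2 ≤ CI ^ 2 * (E ^ θ) ^ 2 := by
    rw [← sq_abs, ← mul_pow]
    exact pow_le_pow_left₀ (abs_nonneg _) hf 2
  have h2 : (E ^ θ) ^ 2 = (E ^ 4) ^ (θ / 2) := by
    rw [← Real.rpow_natCast, ← Real.rpow_mul hE0.le, ← Real.rpow_natCast, ← Real.rpow_mul hE0.le]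
    congr 1
    push_cast
    ring
  have h3 : (E ^ 4) ^ (θ / 2) ≤ C₃ * (1 + ly) ^ (θ / 2) := by
    refine (Real.rpow_le_rpow (by positivity) h (by positivity)).trans ?_
    exact mul_rpow_le hC₃ (by linarith) (by linarith)
  have h4 : 1 ≤ C₃ * (1 + ly) ^ (θ / 2) :=
    one_le_mul_of_one_le_of_one_le hC₃ (Real.one_le_rpow (by linarith) (by positivity))
  rw [h2] at h1
  have h5 : 1 ≤ CI ^ 2 := one_le_pow₀ hCI
  have h6 := mul_le_mul_of_nonneg_left h3 (show 0 ≤ CI ^ 2 by linarith)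
  have h7 : 1 ≤ CI ^ 2 * (C₃ * (1 + ly) ^ (θ / 2)) := one_le_mul_of_one_le_of_one_le h5 h4
  linarith

theorem sm_sound (q : Cst2 k) (n d₁ M : ℕ) (hM : 1 ≤ M) : ∃ C : ℝ, 1 ≤ C ∧
    ∀ W : ℚ → ℚ → Prop, Snd A δ W → ∀ l y : ℚ, q.Sm n d₁ M W l y →
      Real.log (H l) ≤ C * (1 + Real.log (H y)) ^ ((1 - (1 / 2 : ℝ) ^ n) / 2) := by
  obtain ⟨CG, hCG, hG⟩ := gr_sound q
  obtain ⟨CI, hCI, hI⟩ := i_sound q n
  have hc := k.hc
  have hK₀ := k.hK₀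
  have hC1 := k.hC1
  set lM : ℝ := Real.log ((1 + M : ℕ) : ℝ) with hlM
  have hlM0 : 0 ≤ lM := Real.log_natCast_nonneg _
  set C₁ : ℝ := (1 + 3 * k.C) * (2 + lM) with hC₁
  have hC₁0 : 0 ≤ C₁ := by positivity
  set C₂ : ℝ := 2 + 2 * (C₁ + k.K₀) / k.c with hC₂
  have hC₂1 : 1 ≤ C₂ := by
    have : 0 ≤ 2 * (C₁ + k.K₀) / k.c := by positivity
    linarith
  have hC₃1 : 1 ≤ 16 * CG ^ 2 * C₂ := by
    have : 1 ≤ CG ^ 2 := one_le_pow₀ hCG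
    nlinarith
  set C₄ : ℝ := (1 + 3 * k.C) * (1 + k.K₀ + k.c * (8 + 2 * (2 * (d₁ : ℝ) + 1) ^ 2)) with hC₄
  have hC₄1 : 1 ≤ C₄ := by
    have : 0 ≤ k.c * (8 + 2 * (2 * (d₁ : ℝ) + 1) ^ 2) := by positivity
    exact one_le_mul_of_one_le_of_one_le (by linarith) (by linarith)
  refine ⟨C₄ * (2 * CI ^ 2 * (16 * CG ^ 2 * C₂)), ?_, ?_⟩
  · have h1 : 1 ≤ CI ^ 2 := one_le_pow₀ hCI
    have h2 := one_le_mul_of_one_le_of_one_le h1 hC₃1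
    exact one_le_mul_of_one_le_of_one_le hC₄1 (by linarith)
  rintro W hW l y ⟨m, e, f, hm, he, hf, hl⟩
  have hly0 : 0 ≤ Real.log (H y) := log_H_nonneg _
  have h1 := k.pc_sound hW hm
  have h2 := k.pc_sound hW hl
  have b1 := (abs_le.mp (k.hpt m)).1
  have b2 := (abs_le.mp (k.hpt (f + d₁))).2
  have h3 : Real.log (H (y ^ 2 + M)) ≤ lM + 2 * Real.log (H y) := by
    have h4 : ((H (y ^ 2 + M) : ℕ) : ℝ) ≤ ((1 + M : ℕ) : ℝ) * (H y : ℝ) ^ 2 := by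
      exact_mod_cast (H_sq_add y hM).2.2
    have p1 : (0 : ℝ) < H (y ^ 2 + M) := by exact_mod_cast H_pos _
    have p2 : (0 : ℝ) < H y := by exact_mod_cast H_pos _
    have p3 : (0 : ℝ) < ((1 + M : ℕ) : ℝ) := by positivity
    have h5 := Real.log_le_log p1 h4
    rw [Real.log_mul p3.ne' (by positivity), Real.log_pow] at h5
    push_cast at h5 ⊢
    rw [hlM]
    push_cast
    linarith
  have h4 := hG W hW m 0 e he
  have h5 := hI W hW f e hf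
  simp only [Int.cast_zero, abs_zero, add_zero, mul_one] at h4
  generalize Real.log (H y) = ly at *
  generalize Real.log (H (ptX (U m))) = lm at *
  generalize Real.log (H (y ^ 2 + M)) = lyM at *
  generalize Real.log (H (ptX (U (f + d₁)))) = lf at *
  have h6 : lm ≤ C₁ * (1 + ly) := by
    have h7 : 1 + lyM ≤ (2 + lM) * (1 + ly) := by
      have := mul_nonneg hlM0 hly0
      linarith
    have h8 := mul_le_mul_of_nonneg_left h7 (show 0 ≤ 1 + 3 * k.C by linarith)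
    rw [hC₁, mul_assoc]
    exact h1.trans h8
  have h7 := sm_aux1 hc hC₁0 hK₀ hly0 h6 (by linarith) (sq_le_sq_two m)
  have h8 := sm_aux2 hCG h4 h7
  have h9 := sm_aux3 hC₃1 hCI (by linarith [abs_nonneg (e : ℝ)]) (th_nonneg n) (th_le_one n) hly0
    h8 h5
  have e0 : (2 * ((f + d₁ : ℤ) : ℝ) + 1) = 2 * (f : ℝ) + (2 * (d₁ : ℝ) + 1) := by push_cast; ring
  rw [e0] at b2
  have h10 : (2 * (f : ℝ) + (2 * (d₁ : ℝ) + 1)) ^ 2 ≤
      (8 + 2 * (2 * (d₁ : ℝ) + 1) ^ 2) * (1 + (f : ℝ) ^ 2) := by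
    have : 0 ≤ (2 * (d₁ : ℝ) + 1) ^ 2 * (f : ℝ) ^ 2 := by positivity
    nlinarith [sq_nonneg (2 * (f : ℝ) - (2 * (d₁ : ℝ) + 1))]
  have h11 : 1 + lf ≤ (1 + k.K₀ + k.c * (8 + 2 * (2 * (d₁ : ℝ) + 1) ^ 2)) * (1 + (f : ℝ) ^ 2) := by
    have h12 := mul_le_mul_of_nonneg_left h10 hc.le
    have h13 : 0 ≤ (1 + k.K₀) * (f : ℝ) ^ 2 := by positivity
    linarith
  have h12 := mul_le_mul_of_nonneg_left h11 (show 0 ≤ 1 + 3 * k.C by linarith)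
  have h13 := mul_le_mul_of_nonneg_left h9 (show 0 ≤ C₄ by linarith)
  calc Real.log (H l) ≤ (1 + 3 * k.C) * (1 + lf) := h2
    _ ≤ C₄ * (1 + (f : ℝ) ^ 2) := by rw [hC₄, mul_assoc]; exact h12
    _ ≤ _ := h13.trans (le_of_eq (by ring))

/-- the largest index with a small height -/
lemma exists_idx {c K₀ h : ℝ} (hc : 0 < c) (h0 : c + K₀ ≤ h) :
    ∃ m : ℕ, c * (2 * (m : ℝ) + 1) ^ 2 + K₀ ≤ h ∧ h ≤ c * (9 * (1 + (m : ℝ)) ^ 2) + K₀ := by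
  have hex : ∃ m : ℕ, h < c * (2 * (m : ℝ) + 3) ^ 2 + K₀ := by
    obtain ⟨m, hm⟩ := exists_nat_gt ((h - K₀) / c)
    refine ⟨m, ?_⟩
    rw [div_lt_iff₀ hc] at hm
    have hm0 : (0 : ℝ) ≤ m := Nat.cast_nonneg _
    have : (m : ℝ) ≤ (2 * (m : ℝ) + 3) ^ 2 := by nlinarith
    have := mul_le_mul_of_nonneg_left this hc.le
    linarith
  classical
  refine ⟨Nat.find hex, ?_, ?_⟩
  · rcases Nat.eq_zero_or_pos (Nat.find hex) with h1 | h1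
    · rw [h1]
      simp only [Nat.cast_zero, mul_zero, zero_add, one_pow, mul_one]
      exact h0
    · have h2 := Nat.find_min hex (m := Nat.find hex - 1) (by omega)
      push Not at h2
      have e : (((Nat.find hex - 1 : ℕ)) : ℝ) = (Nat.find hex : ℝ) - 1 := by
        rw [Nat.cast_sub h1, Nat.cast_one]
      rw [e] at h2
      have e2 : 2 * ((Nat.find hex : ℝ) - 1) + 3 = 2 * (Nat.find hex : ℝ) + 1 := by ring
      rwa [e2] at h2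
  · have h2 := Nat.find_spec hex
    have hm0 : (0 : ℝ) ≤ Nat.find hex := Nat.cast_nonneg _
    have h3 : (2 * (Nat.find hex : ℝ) + 3) ^ 2 ≤ 9 * (1 + (Nat.find hex : ℝ)) ^ 2 := by nlinarith
    have := mul_le_mul_of_nonneg_left h3 hc.le
    linarith

lemma sm_aux4 {δ θ C₆ ly m g F : ℝ} (hδ0 : 0 ≤ δ) (hδ : δ ≤ 1) (hθ : 0 < θ) (hC₆ : 1 ≤ C₆)
    (hly : 0 ≤ ly) (hm0 : 0 ≤ m) (hg : 0 < g) (h1 : 1 + ly ≤ C₆ * (1 + m) ^ 2)
    (h2 : 1 + m ≤ 6 * (6 * g) ^ 2) (h3 : g ^ θ ≤ F) :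
    (1 + ly) ^ δ ≤ C₆ * 46656 * (1 + F ^ 2) ^ (2 * δ / θ) := by
  have hF : 0 ≤ F := (Real.rpow_nonneg hg.le _).trans h3
  have h4 : (1 + m) ^ 2 ≤ 46656 * g ^ 4 := by
    calc (1 + m) ^ 2 ≤ (6 * (6 * g) ^ 2) ^ 2 := pow_le_pow_left₀ (by linarith) h2 2
      _ = 46656 * g ^ 4 := by ring
  have h5 : 1 + ly ≤ (C₆ * 46656) * g ^ 4 := by
    have := mul_le_mul_of_nonneg_left h4 (show 0 ≤ C₆ by linarith)
    linarith
  have h6 : (1 + ly) ^ δ ≤ (C₆ * 46656) * (g ^ 4) ^ δ := by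
    refine (Real.rpow_le_rpow (by linarith) h5 hδ0).trans ?_
    exact mul_rpow_le (by linarith) (by positivity) hδ
  have h7 : (g ^ 4) ^ δ = (g ^ θ) ^ (4 * δ / θ) := by
    rw [← Real.rpow_natCast, ← Real.rpow_mul hg.le, ← Real.rpow_mul hg.le]
    congr 1
    push_cast
    field_simp
  have h8 : (g ^ θ) ^ (4 * δ / θ) ≤ F ^ (4 * δ / θ) :=
    Real.rpow_le_rpow (Real.rpow_nonneg hg.le _) h3 (by positivity)
  have h9 : F ^ (4 * δ / θ) = (F ^ 2) ^ (2 * δ / θ) := by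
    rw [← Real.rpow_natCast F 2, ← Real.rpow_mul hF]
    congr 1
    push_cast
    ring
  have h10 : (F ^ 2) ^ (2 * δ / θ) ≤ (1 + F ^ 2) ^ (2 * δ / θ) :=
    Real.rpow_le_rpow (by positivity) (by linarith) (by positivity)
  rw [h7] at h6
  rw [h9] at h8
  exact h6.trans (mul_le_mul_of_nonneg_left (h8.trans h10) (by positivity))

theorem sm_compl (q : Cst2 k) {n : ℕ} (hn : 2 * δ < 1 - (1 / 2 : ℝ) ^ n) : ∃ d₁ M : ℕ, 1 ≤ M ∧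
    ∀ W : ℚ → ℚ → Prop, Cpl A δ W → ∀ (y : ℚ) (l : ℕ), 1 ≤ l →
      Real.log l ≤ A * (1 + Real.log (H y)) ^ δ → q.Sm n d₁ M W l y := by
  have hc := k.hc
  have hK₀ := k.hK₀
  have hA := k.hA
  have hδ0 := k.hδ0
  have hδ := k.hδ
  set θ : ℝ := 1 - (1 / 2 : ℝ) ^ n with hθ
  have hθ0 : 0 < θ := by linarith
  obtain ⟨M, hM⟩ := exists_nat_gt (Real.exp (k.c + k.K₀))
  have hM0 : (0 : ℝ) < M := lt_trans (Real.exp_pos _) hM
  have hM1 : 1 ≤ M := by exact_mod_cast hM0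
  have hMl : k.c + k.K₀ ≤ Real.log M := by
    rw [Real.le_log_iff_exp_le hM0]
    exact hM.le
  obtain ⟨C', hC'0, hC'⟩ := rpow_le_lin' (B := A * ((1 + k.K₀ + 9 * k.c) * 46656))
    (θ := 2 * δ / θ) (ε := k.c) (by positivity) (by positivity)
    ((div_lt_one hθ0).mpr hn) hc
  obtain ⟨d₁', hd₁'⟩ := exists_nat_gt ((C' + k.K₀) / (3 * k.c))
  rw [div_lt_iff₀ (by positivity)] at hd₁'
  refine ⟨d₁' + 1, M, hM1, fun W hW y l hl1 hl => ?_⟩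
  obtain ⟨H1, H2, -⟩ := H_sq_add y hM1
  have p1 : (0 : ℝ) < H (y ^ 2 + M) := by exact_mod_cast H_pos _
  have p2 : (0 : ℝ) < H y := by exact_mod_cast H_pos _
  have hly0 : 0 ≤ Real.log (H y) := log_H_nonneg _
  have g1 : Real.log M ≤ Real.log (H (y ^ 2 + M)) := by
    apply Real.log_le_log hM0
    exact_mod_cast H1
  have g2 : 2 * Real.log (H y) ≤ Real.log (H (y ^ 2 + M)) := by
    have h3 : (H y : ℝ) ^ 2 ≤ H (y ^ 2 + M) := by exact_mod_cast H2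
    have h4 := Real.log_le_log (by positivity) h3
    rw [Real.log_pow] at h4
    push_cast at h4
    exact h4
  obtain ⟨m, hm1, hm2⟩ := exists_idx hc (hMl.trans g1)
  obtain ⟨e, he1, he2⟩ := root_step q hW m 0
  obtain ⟨f, hf1, hf2⟩ := i_compl q hW e n
  refine ⟨m, e, f, k.pc_compl hW ?_, by simpa using he1, hf1, k.pc_compl hW ?_⟩
  · apply H_le_of_log
    have b1 := (abs_le.mp (k.hpt m)).2
    push_cast at b1
    linarith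
  · apply H_le_of_log
    rw [H_nat hl1]
    have b1 := (abs_le.mp (k.hpt (f + (d₁' + 1 : ℕ)))).1
    have hm0 : (0 : ℝ) ≤ m := Nat.cast_nonneg _
    have he0 : (0 : ℝ) ≤ e := Nat.cast_nonneg _
    have hf0 : (0 : ℝ) ≤ f := Nat.cast_nonneg _
    have hd0 : (0 : ℝ) ≤ d₁' := Nat.cast_nonneg _
    have he3 : (2 * 0 + 1) * (2 * (m : ℝ) + 1) ≤ 6 * (e + 1) ^ 2 := by exact_mod_cast he2
    have a1 : 1 + Real.log (H y) ≤ (1 + k.K₀ + 9 * k.c) * (1 + (m : ℝ)) ^ 2 := by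
      have h3 : 1 ≤ (1 + (m : ℝ)) ^ 2 := one_le_pow₀ (by linarith)
      have h4 := mul_le_mul_of_nonneg_left h3 (show 0 ≤ 1 + k.K₀ by linarith)
      nlinarith
    have a2 := sm_aux4 (δ := δ) (θ := θ) (C₆ := 1 + k.K₀ + 9 * k.c) (ly := Real.log (H y)) (m := m)
      (g := (1 + (e : ℝ)) / 6) (F := 1 + f) hδ0 (by linarith) hθ0 (by linarith) hly0 hm0
      (by positivity) a1 (by
        have : 6 * ((1 + (e : ℝ)) / 6) = 1 + e := by ring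
        rw [this]
        nlinarith) hf2
    have a3 := mul_le_mul_of_nonneg_left a2 hA
    rw [← mul_assoc] at a3
    have a4 := hC' ((1 + (f : ℝ)) ^ 2) (by positivity)
    have e0 : (2 * ((f + (d₁' + 1 : ℕ) : ℤ) : ℝ) + 1) = 2 * ((f : ℝ) + (d₁' + 1)) + 1 := by
      push_cast; ring
    rw [e0] at b1
    have h8 : ((f : ℝ) + 1) ^ 2 + 3 * (d₁' + 1) ≤ (2 * ((f : ℝ) + (d₁' + 1)) + 1) ^ 2 := by
      have := mul_nonneg hf0 hd0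
      nlinarith
    have h9 := mul_le_mul_of_nonneg_left h8 hc.le
    have h10 : k.c * (1 + (f : ℝ)) ^ 2 = k.c * ((f : ℝ) + 1) ^ 2 := by ring
    linarith

end Pool.Agent.J4H62.DQ
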